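import Pool.Agent.H56.SP.PH

/-!
The case of a nonzero remainder: the only form of degree `k` satisfying the two
invariance conditions `ha` and `hb` is zero.
-/

namespace H56.SP
open Polynomial

private theorem two_zero : (2 : (ZMod 2)[X]) = 0 := by
  have h : ((2 : ℕ) : (ZMod 2)[X]) = 0 := CharP.cast_eq_zero _ 2
  exact_mod_cast h

private theorem xa_ne : (X + 1 : (ZMod 2)[X]) ≠ 0 := by
  intro h
  have h' := congrArg (fun p => p.eval 0) h
  simp at h'

private theorem xx_ne : (X ^ 2 + X + 1 : (ZMod 2)[X]) ≠ 0 := by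
  intro h
  have h' := congrArg (fun p => p.eval 0) h
  simp at h'

private theorem s_ne : (X ^ 2 + X : (ZMod 2)[X]) ≠ 0 := by
  have h : (X ^ 2 + X : (ZMod 2)[X]) = X * (X + 1) := by ring
  rw [h]
  exact mul_ne_zero X_ne_zero xa_ne

private theorem s_natDegree : (X ^ 2 + X : (ZMod 2)[X]).natDegree = 2 := by
  have h : (X ^ 2 + X : (ZMod 2)[X]) = X * (X + C 1) := by rw [map_one]; ring
  rw [h, natDegree_mul X_ne_zero (X_add_C_ne_zero 1), natDegree_X, natDegree_X_add_C]

private theorem coeff_tau (k : ℕ) (v : (ZMod 2)[X]) (hk : v.natDegree ≤ k) :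
    (v.comp (X + 1)).coeff k = v.coeff k := by
  revert v
  refine phi_ind k _ ?_ ?_ ?_
  · simp
  · intro i hi c
    rw [mul_comp, C_comp, X_pow_comp, coeff_C_mul, coeff_C_mul, coeff_X_add_one_pow, coeff_X_pow]
    rcases Nat.eq_or_lt_of_le hi with h | h
    · subst h; simp
    · rw [Nat.choose_eq_zero_of_lt h, if_neg h.ne']
      simp
  · intro p q h1 h2
    rw [add_comp, coeff_add, coeff_add, h1, h2]

private theorem natDegree_tau (k : ℕ) (v : (ZMod 2)[X]) (hk : v.natDegree ≤ k) :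
    (v.comp (X + 1)).natDegree ≤ k := by
  have h : (X + 1 : (ZMod 2)[X]) = X + C 1 := by rw [map_one]
  rw [natDegree_comp, h, natDegree_X_add_C, mul_one]
  exact hk

private theorem eval_tau (v : (ZMod 2)[X]) (c : ZMod 2) :
    (v.comp (X + 1)).eval c = v.eval (c + 1) := by
  simp [eval_comp]

private theorem Phi_one_X : Phi 1 (X : (ZMod 2)[X]) = X ^ 2 := by
  have h1 : (X : (ZMod 2)[X]) = C 1 * X ^ 1 := by simp
  conv_lhs => rw [h1]
  rw [Phi_C_mul_X_pow 1 1 le_rfl]
  simp

/-- a form killed at the point `1` by the two invariance conditions -/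
private theorem ends_zero (k : ℕ) (v : (ZMod 2)[X]) (hk : v.natDegree ≤ k)
    (ha : (Phi k (v.comp (X + 1))).comp (X + 1) = Phi k (v.comp (X + 1)))
    (hb : ((X + 1) * Phi k v).comp (X + 1) = (X + 1) * Phi k v) :
    v.eval 0 = 0 ∧ v.coeff k = 0 ∧ v.eval 1 = 0 := by
  have h0 : v.eval 0 = 0 := by
    have h := congrArg (fun p => p.eval 0) hb
    simp only [eval_tau, eval_mul, eval_add, eval_X, eval_one, zero_add,
      Phi_eval_zero k v hk, one_mul] at h
    rw [← h, one_add_one_zmod, zero_mul]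
  have hc : v.coeff k = 0 := by
    rcases Nat.eq_zero_or_pos k with hk0 | hk0
    · subst hk0
      rw [coeff_zero_eq_eval_zero]
      exact h0
    · obtain ⟨j, rfl⟩ : ∃ j, k = 1 + j := ⟨k - 1, by omega⟩
      obtain ⟨u, rfl⟩ : (X : (ZMod 2)[X]) ∣ v := by
        rw [X_dvd_iff, coeff_zero_eq_eval_zero]
        exact h0
      by_cases hu : u = 0
      · subst hu; simp
      have hud : u.natDegree ≤ j := by
        rw [natDegree_mul X_ne_zero hu, natDegree_X] at hk
        omega
      have hP : Phi (1 + j) (X * u) = X ^ 2 * Phi j u := by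
        rw [Phi_mul 1 j X u natDegree_X_le hud, Phi_one_X]
      rw [hP] at hb
      have h1 : (X * (X + 1)) * ((X + 1) * (Phi j u).comp (X + 1)) =
          (X * (X + 1)) * (X * Phi j u) := by
        have h2 : ((X + 1) * (X ^ 2 * Phi j u)).comp (X + 1) =
            (X + 1 + 1) * ((X + 1) ^ 2 * (Phi j u).comp (X + 1)) := by
          simp [mul_comp, add_comp]
        rw [h2] at hb
        linear_combination hb - (X + 1) ^ 2 * (Phi j u).comp (X + 1) * two_zero
      have h3 := mul_left_cancel₀ (mul_ne_zero X_ne_zero xa_ne) h1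
      have h4 := congrArg (fun p => p.eval 0) h3
      simp only [eval_tau, eval_mul, eval_add, eval_X, eval_one, zero_add, zero_mul,
        one_mul] at h4
      rw [← Phi_eval_one (1 + j) (X * u) hk, hP, eval_mul, h4, mul_zero]
  refine ⟨h0, hc, ?_⟩
  have h := congrArg (fun p => p.eval 0) ha
  simp only [eval_tau, zero_add] at h
  rw [Phi_eval_one k _ (natDegree_tau k v hk), Phi_eval_zero k _ (natDegree_tau k v hk),
    coeff_tau k v hk, hc, eval_tau, zero_add] at h
  exact h.symm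

private theorem s_dvd (v : (ZMod 2)[X]) (h0 : v.eval 0 = 0) (h1 : v.eval 1 = 0) :
    ∃ w : (ZMod 2)[X], v = (X ^ 2 + X) * w := by
  obtain ⟨u, rfl⟩ : (X : (ZMod 2)[X]) ∣ v := by
    rw [X_dvd_iff, coeff_zero_eq_eval_zero]
    exact h0
  rw [eval_mul, eval_X, one_mul] at h1
  obtain ⟨w, rfl⟩ : (X - C 1 : (ZMod 2)[X]) ∣ u := dvd_iff_isRoot.mpr h1
  refine ⟨w, ?_⟩
  rw [map_one]
  linear_combination (- (X * w)) * two_zero

theorem lemQ (k : ℕ) (v : (ZMod 2)[X]) (hk : v.natDegree ≤ k)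
    (ha : (Phi k (v.comp (X + 1))).comp (X + 1) = Phi k (v.comp (X + 1)))
    (hb : ((X + 1) * Phi k v).comp (X + 1) = (X + 1) * Phi k v) : v = 0 := by
  induction k using Nat.strong_induction_on generalizing v with
  | _ k ih =>
  obtain ⟨h0, hc, h1⟩ := ends_zero k v hk ha hb
  obtain ⟨w, rfl⟩ := s_dvd v h0 h1
  by_contra hv
  have hw : w ≠ 0 := by
    rintro rfl
    exact hv (mul_zero _)
  have hlt : ((X ^ 2 + X) * w : (ZMod 2)[X]).natDegree < k := by
    refine lt_of_le_of_ne hk ?_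
    intro h
    rw [← h] at hc
    exact hv (leadingCoeff_eq_zero.mp hc)
  rw [natDegree_mul s_ne hw, s_natDegree] at hlt
  obtain ⟨j, rfl⟩ : ∃ j, k = 2 + (j + 1) := ⟨k - 3, by omega⟩
  have hwj : w.natDegree ≤ j := by omega
  have hS : ((X ^ 2 + X) * w : (ZMod 2)[X]).comp (X + 1) = (X ^ 2 + X) * w.comp (X + 1) := by
    rw [mul_comp, add_comp, X_pow_comp, X_comp]
    linear_combination (X + 1) * w.comp (X + 1) * two_zero
  have hP : ∀ u : (ZMod 2)[X], u.natDegree ≤ j →
      Phi (2 + (j + 1)) ((X ^ 2 + X) * u) =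
        X ^ 2 * (X ^ 2 + X + 1) * ((X + 1) * Phi j u) := by
    intro u hu
    rw [Phi_mul 2 (j + 1) _ u s_natDegree.le (by omega), Phi_two_S, Phi_succ j u hu]
  have hcomp : ∀ q : (ZMod 2)[X],
      (X ^ 2 * (X ^ 2 + X + 1) * ((X + 1) * q)).comp (X + 1) =
        (X + 1) ^ 2 * (X ^ 2 + X + 1) * (X * q.comp (X + 1)) := by
    intro q
    simp only [mul_comp, add_comp, X_pow_comp, X_comp, one_comp]
    linear_combination ((X + 1) ^ 2 * ((X + 1) ^ 2 + (X + 1) + 1) * q.comp (X + 1) +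
      (X + 1) ^ 2 * (X + 1) * X * q.comp (X + 1)) * two_zero
  -- first condition
  rw [hS, hP _ (natDegree_tau j w hwj), hcomp] at ha
  have ha1 : (X + 1) * (Phi j (w.comp (X + 1))).comp (X + 1) = X * Phi j (w.comp (X + 1)) := by
    apply mul_left_cancel₀ (mul_ne_zero (mul_ne_zero X_ne_zero xa_ne) xx_ne)
    linear_combination ha
  have hwc : w.coeff j = 0 := by
    have h4 := congrArg (fun p => p.eval 0) ha1
    simp only [eval_tau, eval_mul, eval_add, eval_X, eval_one, zero_add, zero_mul,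
      one_mul] at h4
    rw [Phi_eval_one j _ (natDegree_tau j w hwj), coeff_tau j w hwj] at h4
    exact h4
  have hlt2 : w.natDegree < j := by
    refine lt_of_le_of_ne hwj ?_
    intro h
    rw [← h] at hwc
    exact hw (leadingCoeff_eq_zero.mp hwc)
  obtain ⟨i, rfl⟩ : ∃ i, j = i + 1 := ⟨j - 1, by omega⟩
  have hwi : w.natDegree ≤ i := by omega
  apply hw
  refine ih i (by omega) w hwi ?_ ?_
  · rw [Phi_succ i _ (natDegree_tau i w hwi)] at ha1
    apply mul_left_cancel₀ (mul_ne_zero X_ne_zero xa_ne)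
    have h5 : ((X + 1) * Phi i (w.comp (X + 1))).comp (X + 1) =
        (X + 1 + 1) * (Phi i (w.comp (X + 1))).comp (X + 1) := by
      simp [mul_comp, add_comp]
    rw [h5] at ha1
    linear_combination ha1 - (X + 1) * (Phi i (w.comp (X + 1))).comp (X + 1) * two_zero
  · rw [hP w hwj, ] at hb
    rw [← Phi_succ i w hwi]
    have h6 : ((X + 1) * (X ^ 2 * (X ^ 2 + X + 1) * ((X + 1) * Phi (i + 1) w))).comp (X + 1) =
        (X + 1 + 1) * ((X + 1) ^ 2 * (X ^ 2 + X + 1) * (X * (Phi (i + 1) w).comp (X + 1))) := by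
      rw [mul_comp, hcomp]
      simp [add_comp]
    rw [h6] at hb
    apply mul_left_cancel₀ (mul_ne_zero (mul_ne_zero (pow_ne_zero 2 X_ne_zero)
      (pow_ne_zero 2 xa_ne)) xx_ne)
    linear_combination hb - ((X + 1) ^ 2 * (X ^ 2 + X + 1) *
      (X * (Phi (i + 1) w).comp (X + 1))) * two_zero

end H56.SP
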