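import Pool.Agent.H56.SP.Setup
import Pool.Agent.H56.SP.Q

/-!
The borderline case: `n = 2k'`, the minimal annihilator has degree `n + 1`, and its companion for
`lam L` is not invariant under the swap `sig`.
-/

namespace H56.SP
open Polynomial

theorem c_reflect_reflect (m : ℕ) (p : (ZMod 2)[X]) : (p.reflect m).reflect m = p := by
  ext i
  rw [coeff_reflect, coeff_reflect, revAt_invol]

theorem c_reflect_succ (m : ℕ) (p : (ZMod 2)[X]) (hp : p.natDegree ≤ m) :
    p.reflect (m + 1) = X * p.reflect m := by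
  have h := reflect_mul p 1 (F := m) (G := 1) hp (by simp)
  rw [mul_one] at h
  rw [h, mul_comm]
  congr 1
  simp

theorem c_comp_S_eq_zero {b : (ZMod 2)[X]} (h : b.comp (X ^ 2 + X) = 0) : b = 0 := by
  by_contra hb
  rcases comp_eq_zero_iff.1 h with h1 | ⟨_, h2⟩
  · exact hb h1
  · have h3 := natDegree_S
    rw [h2, natDegree_C] at h3
    exact absurd h3 (by norm_num)

/-- a monomial annihilator of `lam L` of degree `4a` gives an annihilator of `L` of degree `6a` -/
theorem evenEnd {L : (ZMod 2)[X] →ₗ[ZMod 2] ZMod 2} {n : ℕ} (hL : Good L n) (a : ℕ)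
    (ha : 1 ≤ a) (hn : 8 * a ≤ n + 2)
    (hw : Ann (lam L) n (4 * a) (X ^ (2 * a) * (X + 1) ^ a)) :
    Ann L (2 * n + 1) (6 * a) (((X ^ 2 + X) ^ a).comp (X ^ 2 + X)) := by
  have hf := hL.ann_of_lam (4 * a) (by omega) _ hw
  have hcomp : (X ^ (2 * a) * (X + 1) ^ a : (ZMod 2)[X]).comp (X ^ 2 + X)
      = (X ^ 2 + X) ^ (2 * a) * (X ^ 2 + X + 1) ^ a := by
    simp only [mul_comp, pow_comp, add_comp, X_comp, one_comp]
  rw [hcomp] at hf
  have hq : ∀ B : (ZMod 2)[X], B.natDegree + 5 * a ≤ n →
      lam L ((X ^ 2 + X) ^ a * (X ^ 2 + X + 1) ^ a * B) = 0 := by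
    intro B hB
    rw [lam_apply]
    have h1 : (X : (ZMod 2)[X]) * ((X ^ 2 + X) ^ a * (X ^ 2 + X + 1) ^ a * B).comp (X ^ 2)
        = ((X ^ 2 + X) ^ (2 * a) * (X ^ 2 + X + 1) ^ a) *
          (X * (X ^ 2 + X + 1) ^ a * B.comp (X ^ 2)) := by
      simp only [mul_comp, pow_comp, add_comp, X_comp, one_comp]
      have h2 : (((X : (ZMod 2)[X]) ^ 2) ^ 2 + X ^ 2) = (X ^ 2 + X) ^ 2 := by
        rw [CharTwo.add_sq]
      have h3 : ((X ^ 2) ^ 2 + X ^ 2 + 1 : (ZMod 2)[X]) = (X ^ 2 + X + 1) ^ 2 := by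
        rw [CharTwo.add_sq, CharTwo.add_sq, one_pow]
      rw [h3, h2, ← pow_mul, ← pow_mul]
      ring
    rw [h1]
    apply hf.2
    have h4 : (X * (X ^ 2 + X + 1) ^ a * B.comp (X ^ 2) : (ZMod 2)[X]).natDegree
        ≤ 1 + 2 * a + 2 * B.natDegree := by
      refine natDegree_mul_le.trans (Nat.add_le_add (natDegree_mul_le.trans
        (Nat.add_le_add natDegree_X_le ?_)) ?_)
      · refine natDegree_pow_le.trans ?_
        have h5 : (X ^ 2 + X + 1 : (ZMod 2)[X]).natDegree ≤ 2 := by compute_degree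
        calc a * (X ^ 2 + X + 1 : (ZMod 2)[X]).natDegree ≤ a * 2 := Nat.mul_le_mul le_rfl h5
          _ = 2 * a := by ring
      · rw [natDegree_comp, natDegree_X_pow]
        omega
    omega
  have hA : Ann (lam L) n (3 * a) ((X ^ 2 + X) ^ a) := by
    refine ⟨?_, ?_⟩
    · rw [natDegree_S_pow]
      omega
    · intro h hh
      obtain ⟨A, B, hAB, hA, hB⟩ := split_X_D a a (n - 3 * a) ha ha (by omega) h (by omega)
      have h1 : (X ^ 2 + X) ^ a * h = (X ^ (2 * a) * (X + 1) ^ a) * A
          + (X ^ 2 + X) ^ a * (X ^ 2 + X + 1) ^ a * B := by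
        rw [hAB, show (X ^ 2 + X : (ZMod 2)[X]) = X * (X + 1) by ring, mul_pow]
        ring
      rw [h1, map_add, hw.2 A (by omega), hq B (by omega), add_zero]
  have h5 := hL.ann_of_lam (3 * a) (by omega) _ hA
  rwa [show 2 * (3 * a) = 6 * a by ring] at h5

theorem caseC (L : (ZMod 2)[X] →ₗ[ZMod 2] ZMod 2) (k' : ℕ) (hk' : 1 ≤ k') (hL : Good L (2 * k'))
    (hmin : ∀ j < 2 * k' + 1, ∀ p, Ann L (2 * (2 * k') + 1) j p → p = 0)
    (f g : (ZMod 2)[X]) (hf0 : f ≠ 0) (hf : Ann L (2 * (2 * k') + 1) (2 * k' + 1) f)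
    (hft : f.comp (X + 1) = f) (hfr : f.reflect (2 * k' + 1) = f)
    (hfg : f = g.comp (X ^ 2 + X)) (hg : g.natDegree ≤ k')
    (hlg : Ann (lam L) (2 * k') (k' + 1) g) (hne : sig (k' + 1) g ≠ g) : False := by
  obtain ⟨s, hs⟩ : ∃ s, s = sig (k' + 1) g := ⟨_, rfl⟩
  rw [← hs] at hne
  have hls : Ann (lam L) (2 * k') (k' + 1) s := by
    rw [hs]; exact hL.ann_sig (k' + 1) (by omega) g hlg
  obtain ⟨P, hPs⟩ : ∃ P, P = s.comp (X ^ 2 + X) := ⟨_, rfl⟩
  have hP : Ann L (2 * (2 * k') + 1) (2 * k' + 2) P := by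
    rw [hPs]; exact hL.ann_of_lam (k' + 1) (by omega) s hls
  obtain ⟨R, hR⟩ : ∃ R, R = P.reflect (2 * k' + 2) := ⟨_, rfl⟩
  have hRann : Ann L (2 * (2 * k') + 1) (2 * k' + 2) R := by
    rw [hR]; exact hL.ann_rev (2 * k' + 2) (by omega) P hP
  have hRR : R.reflect (2 * k' + 2) = P := by rw [hR, c_reflect_reflect]
  have hPt : P.comp (X + 1) = P := by rw [hPs, comp_assoc, S_comp]
  have hf1 : Ann L (2 * (2 * k') + 1) (2 * k' + 2) f :=
    ⟨by have := hf.1; omega, fun h hh => hf.2 h (by omega)⟩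
  have hf2 : Ann L (2 * (2 * k') + 1) (2 * k' + 2) (X * f) := by
    refine ⟨?_, fun h hh => ?_⟩
    · rw [natDegree_X_mul hf0]
      have := hf.1
      omega
    · rw [show X * f * h = f * (X * h) by ring]
      refine hf.2 _ ?_
      have h1 : (X * h).natDegree ≤ 1 + h.natDegree :=
        natDegree_mul_le.trans (Nat.add_le_add natDegree_X_le le_rfl)
      omega
  have hrf : f.reflect (2 * k' + 2) = X * f := by
    rw [c_reflect_succ (2 * k' + 1) f hf.1, hfr]
  have hrXf : (X * f).reflect (2 * k' + 2) = f := by rw [← hrf, c_reflect_reflect]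
  -- `P` is not a multiple of `f`
  have hnot : ∀ a b : ZMod 2, P ≠ (C a + C b * X) * f := by
    intro a b h
    have h1 : (C b) * f = 0 := by
      have h2 := congrArg (fun p => p.comp (X + 1)) h
      simp only [mul_comp, add_comp, C_comp, X_comp] at h2
      rw [hPt, hft, h] at h2
      linear_combination -h2
    have hb : b = 0 := by
      rcases mul_eq_zero.1 h1 with h3 | h3
      · exact C_eq_zero.1 h3
      · exact absurd h3 hf0
    rw [hb, C_0, zero_mul, add_zero] at h
    have h01 : ∀ x : ZMod 2, x = 0 ∨ x = 1 := by decide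
    rcases h01 a with h4 | h4
    · rw [h4, C_0, zero_mul] at h
      rw [h] at hPs
      have h5 : s = 0 := c_comp_S_eq_zero hPs.symm
      have h6 : sig (k' + 1) s = g := by rw [hs, sig_sig _ _ (by omega)]
      have h7 : g = 0 := by
        rw [← h6, h5, sig]
        simp
      apply hf0
      rw [hfg, h7, zero_comp]
    · rw [h4, C_1, one_mul, hPs, hfg] at h
      apply hne
      have h5 : (s - g).comp (X ^ 2 + X) = 0 := by rw [sub_comp, h, sub_self]
      exact sub_eq_zero.1 (c_comp_S_eq_zero h5)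
  -- the linear relation
  have hrank := ann_rank L (2 * k') (by omega) (fun p hp => hmin (2 * k' - 1) (by omega) p hp)
    ![f, X * f, P, R] (by
      intro i
      fin_cases i
      · exact hf1
      · exact hf2
      · exact hP
      · exact hRann)
  rw [Fintype.not_linearIndependent_iff] at hrank
  obtain ⟨e, he, i, hi⟩ := hrank
  rw [Fin.sum_univ_four] at he
  obtain ⟨a, ha⟩ : ∃ a, a = e 0 := ⟨_, rfl⟩
  obtain ⟨b, hb⟩ : ∃ b, b = e 1 := ⟨_, rfl⟩
  obtain ⟨c, hc⟩ : ∃ c, c = e 2 := ⟨_, rfl⟩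
  obtain ⟨d, hd⟩ : ∃ d, d = e 3 := ⟨_, rfl⟩
  have hE : C a * f + C b * (X * f) + C c * P + C d * R = 0 := by
    have h1 := he
    simp only [Matrix.cons_val_zero, Matrix.cons_val_one, Matrix.cons_val] at h1
    rw [← ha, ← hb, ← hc, ← hd] at h1
    simpa only [smul_eq_C_mul] using h1
  have hE2 : C a * (X * f) + C b * f + C c * R + C d * P = 0 := by
    have h1 := congrArg (fun p => p.reflect (2 * k' + 2)) hE
    simp only [reflect_add, reflect_C_mul, reflect_zero] at h1
    rw [hrf, hrXf, hRR, ← hR] at h1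
    exact h1
  have hnz : a ≠ 0 ∨ b ≠ 0 ∨ c ≠ 0 ∨ d ≠ 0 := by
    fin_cases i
    · left; rw [ha]; exact hi
    · right; left; rw [hb]; exact hi
    · right; right; left; rw [hc]; exact hi
    · right; right; right; rw [hd]; exact hi
  have h01 : ∀ x : ZMod 2, x = 0 ∨ x = 1 := by decide
  have h2z : (2 : (ZMod 2)[X]) = 0 := CharTwo.two_eq_zero
  -- `R = P + a (1 + X) f`
  have key : R = P ∨ R = P + (1 + X) * f := by
    rcases h01 c with h3 | h3 <;> rcases h01 d with h4 | h4
    · exfalso
      rw [h3, h4, C_0, zero_mul, zero_mul, add_zero, add_zero] at hE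
      have h5 : (C b * X + C a) * f = 0 := by linear_combination hE
      have h6 : (C b * X + C a : (ZMod 2)[X]) = 0 := by
        rcases mul_eq_zero.1 h5 with h7 | h7
        · exact h7
        · exact absurd h7 hf0
      have h7 := congrArg (fun p => p.coeff 0) h6
      have h8 := congrArg (fun p => p.coeff 1) h6
      simp at h7 h8
      rcases hnz with h | h | h | h
      · exact h h7
      · exact h h8
      · exact h h3
      · exact h h4
    · exfalso
      rw [h3, h4, C_0, C_1] at hE2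
      exact hnot b a (by linear_combination hE2 - (C b * f + C a * X * f) * h2z)
    · exfalso
      rw [h3, h4, C_0, C_1] at hE
      exact hnot a b (by linear_combination hE - (C a * f + C b * X * f) * h2z)
    · rw [h3, h4, C_1] at hE hE2
      have h5 : (C b * X + C b + (C a * X + C a)) * f = 0 := by
        linear_combination hE + hE2 - (P + R) * h2z
      have h6 : (C b * X + C b + (C a * X + C a) : (ZMod 2)[X]) = 0 := by
        rcases mul_eq_zero.1 h5 with h7 | h7
        · exact h7
        · exact absurd h7 hf0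
      have h7 := congrArg (fun p => p.coeff 0) h6
      simp at h7
      have hab : a = b := by
        rcases h01 a with h8 | h8 <;> rcases h01 b with h9 | h9 <;> rw [h8, h9] at h7 ⊢
        · exact absurd h7 (by decide)
        · exact absurd h7 (by decide)
      rcases h01 a with h8 | h8
      · left
        rw [← hab, h8, C_0] at hE
        linear_combination hE - P * h2z
      · right
        rw [← hab, h8, C_1] at hE
        linear_combination hE - (P + f + X * f) * h2z
  -- the forms
  have hPv : Phi (k' + 1) (g.reflect (k' + 1)) = X * f := by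
    rw [← Phi_reflect (k' + 1) g (by omega), ← hfg]
    exact hrf
  have hsv : s.reflect (k' + 1) = (g.reflect (k' + 1)).comp (X + 1) := by
    rw [hs, sig, c_reflect_reflect]
  have hPs2 : Phi (k' + 1) ((g.reflect (k' + 1)).comp (X + 1)) = R := by
    rw [← hsv, ← Phi_reflect (k' + 1) s hls.1, ← hPs, hR]
    rfl
  have hvdeg : (g.reflect (k' + 1)).natDegree ≤ k' + 1 :=
    natDegree_reflect_le.trans (max_le le_rfl (by omega))
  have hg0 : g ≠ 0 := by
    rintro rfl
    exact hf0 (by rw [hfg, zero_comp])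
  rcases key with hRP | hRP
  · -- case (i)
    have h1 := lemQ (k' + 1) (g.reflect (k' + 1)) hvdeg (by rw [hPs2, hRP, hPt]) (by
      rw [hPv, mul_comp, mul_comp, hft, X_add_one_comp, X_comp]
      ring)
    apply hg0
    rw [← c_reflect_reflect (k' + 1) g, h1, reflect_zero]
  · -- case (ii)
    obtain ⟨u, hu⟩ : ∃ u, u = g.reflect (k' + 1) + (g.reflect (k' + 1)).comp (X + 1) := ⟨_, rfl⟩
    have hu2 : u = (g + s).reflect (k' + 1) := by rw [hu, reflect_add, hsv]
    have hu0 : u ≠ 0 := by
      intro h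
      apply hne
      have h1 : g + s = 0 := by rw [← c_reflect_reflect (k' + 1) (g + s), ← hu2, h, reflect_zero]
      linear_combination h1 - g * h2z
    have hudeg : u.natDegree ≤ k' + 1 := by
      rw [hu2]
      refine natDegree_reflect_le.trans (max_le le_rfl ?_)
      exact (natDegree_add_le _ _).trans (max_le (by omega) hls.1)
    have hut : u.comp (X + 1) = u := by
      rw [hu, add_comp, comp_comp_self, add_comm]
    have hPu : Phi (k' + 1) u = P + f := by
      rw [hu, Phi_add, hPv, hPs2, hRP]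
      linear_combination (X * f) * h2z
    obtain ⟨a', ha', hua⟩ := lemW (k' + 1) u hudeg hu0 hut (by rw [hPu, add_comp, hPt, hft])
    have ha1 : 1 ≤ a' := by omega
    have hwe : g + s = X ^ (2 * a') * (X + 1) ^ a' := by
      rw [← c_reflect_reflect (k' + 1) (g + s), ← hu2, hua, ← reflect_mono (2 * a') a' a',
        show (X ^ 2 + X : (ZMod 2)[X]) = X * (X + 1) by ring, mul_pow,
        show k' + 1 = 2 * a' + a' + a' by omega]
    have hw : Ann (lam L) (2 * k') (4 * a') (X ^ (2 * a') * (X + 1) ^ a') := by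
      rw [← hwe, ← ha']
      refine ⟨(natDegree_add_le _ _).trans (max_le (by omega) hls.1), fun h hh => ?_⟩
      rw [add_mul, map_add, hlg.2 h hh, hls.2 h hh, add_zero]
    have h6 := evenEnd hL a' ha1 (by omega) hw
    have h7 := hmin (6 * a') (by omega) _ h6
    have h8 := c_comp_S_eq_zero h7
    exact (pow_ne_zero a' S_ne_zero) h8

end H56.SP
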