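import Mathlib

/-!
Polynomials over the field with two elements as `a(S) + X b(S)` with `S = X^2 + X`.
-/

namespace H56.SP

open Polynomial

private lemma S_natDegree : ((X : (ZMod 2)[X]) ^ 2 + X).natDegree = 2 := by
  compute_degree!

private lemma S_monic : ((X : (ZMod 2)[X]) ^ 2 + X).Monic := by
  have h : ((X : (ZMod 2)[X]) ^ 2 + X) = X ^ (1 + 1) + X := by norm_num
  rw [h]
  exact monic_X_pow_add (by rw [degree_X]; norm_num)

private lemma S_comp : ((X : (ZMod 2)[X]) ^ 2 + X).comp (X + 1) = X ^ 2 + X := by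
  have h2 : (2 : (ZMod 2)[X]) = 0 := CharTwo.two_eq_zero
  simp only [add_comp, pow_comp, X_comp]
  linear_combination (X + 1) * h2

private lemma comp_S_comp (b : (ZMod 2)[X]) :
    (b.comp (X ^ 2 + X)).comp (X + 1) = b.comp (X ^ 2 + X) := by
  rw [comp_assoc, S_comp]

private lemma natDegree_comp_S (b : (ZMod 2)[X]) :
    (b.comp (X ^ 2 + X)).natDegree = 2 * b.natDegree := by
  rw [natDegree_comp, S_natDegree]
  ring

private lemma comp_S_eq_zero {b : (ZMod 2)[X]} (h : b.comp (X ^ 2 + X) = 0) : b = 0 := by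
  by_contra hb
  rcases comp_eq_zero_iff.1 h with h1 | ⟨_, h2⟩
  · exact hb h1
  · have h3 := S_natDegree
    rw [h2, natDegree_C] at h3
    exact absurd h3 (by norm_num)

theorem dec (m : ℕ) (p : (ZMod 2)[X]) (hp : p.natDegree ≤ 2 * m + 1) :
    ∃ a b : (ZMod 2)[X], a.natDegree ≤ m ∧ b.natDegree ≤ m ∧
      p = a.comp (X ^ 2 + X) + X * b.comp (X ^ 2 + X) := by
  induction m generalizing p with
  | zero =>
    refine ⟨C (p.coeff 0), C (p.coeff 1), by rw [natDegree_C], by rw [natDegree_C], ?_⟩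
    rw [C_comp, C_comp]
    conv_lhs => rw [eq_X_add_C_of_natDegree_le_one (by simpa using hp : p.natDegree ≤ 1)]
    ring
  | succ m ih =>
    have hdeg : (p /ₘ (X ^ 2 + X)).natDegree ≤ 2 * m + 1 := by
      rw [natDegree_divByMonic _ S_monic, S_natDegree]
      omega
    obtain ⟨a, b, ha, hb, hab⟩ := ih _ hdeg
    have hr : (p %ₘ (X ^ 2 + X)).natDegree ≤ 1 := by
      have h1 := natDegree_modByMonic_lt p S_monic (by
        intro h
        have h2 := S_natDegree
        rw [h, natDegree_one] at h2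
        exact absurd h2 (by norm_num))
      rw [S_natDegree] at h1
      omega
    have hr2 := eq_X_add_C_of_natDegree_le_one hr
    set r := p %ₘ (X ^ 2 + X) with hrdef
    have hp2 : r + (X ^ 2 + X) * (p /ₘ (X ^ 2 + X)) = p := modByMonic_add_div p (X ^ 2 + X)
    refine ⟨X * a + C (r.coeff 0), X * b + C (r.coeff 1), ?_, ?_, ?_⟩
    · refine (natDegree_add_le _ _).trans (max_le ?_ (by rw [natDegree_C]; omega))
      refine natDegree_mul_le.trans ?_
      rw [natDegree_X]
      omega
    · refine (natDegree_add_le _ _).trans (max_le ?_ (by rw [natDegree_C]; omega))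
      refine natDegree_mul_le.trans ?_
      rw [natDegree_X]
      omega
    · rw [← hp2, hab]
      conv_lhs => rw [hr2]
      simp only [add_comp, mul_comp, X_comp, C_comp]
      ring

theorem tau_inv (p : (ZMod 2)[X]) (h : p.comp (X + 1) = p) :
    ∃ g : (ZMod 2)[X], p = g.comp (X ^ 2 + X) ∧ p.natDegree = 2 * g.natDegree := by
  obtain ⟨a, b, -, -, hab⟩ := dec p.natDegree p (by omega)
  have h1 : b.comp (X ^ 2 + X) = 0 := by
    have h2 := h
    rw [hab, add_comp, mul_comp, X_comp, comp_S_comp, comp_S_comp] at h2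
    linear_combination h2
  refine ⟨a, ?_, ?_⟩
  · rw [hab, h1, mul_zero, add_zero]
  · rw [hab, h1, mul_zero, add_zero, natDegree_comp_S]

theorem tau_dvd (p : (ZMod 2)[X]) (h : p.comp (X + 1) = p) (h0 : p.eval 0 = 0) :
    ∃ q : (ZMod 2)[X], p = (X ^ 2 + X) * q ∧ q.comp (X + 1) = q := by
  obtain ⟨g, hg, -⟩ := tau_inv p h
  have h1 : g.eval 0 = 0 := by
    have h2 := h0
    rw [hg, eval_comp] at h2
    simpa using h2
  obtain ⟨g', hg'⟩ := dvd_iff_isRoot.2 h1
  refine ⟨g'.comp (X ^ 2 + X), ?_, comp_S_comp g'⟩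
  rw [hg, hg', mul_comp, sub_comp, X_comp, C_comp, C_0, sub_zero]

end H56.SP
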