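import Pool.Agent.H56.SP.U

namespace H56.SP
open Polynomial

/-- a product with a polynomial of degree at most `m` is killed as soon as the products with the
powers of `X` are -/
theorem map_mul_eq_zero (L : (ZMod 2)[X] →ₗ[ZMod 2] ZMod 2) (m : ℕ) (p : (ZMod 2)[X])
    (hp : ∀ i ≤ m, L (p * X ^ i) = 0) (h : (ZMod 2)[X]) (hh : h.natDegree ≤ m) :
    L (p * h) = 0 := by
  rw [h.as_sum_range' (m + 1) (by omega), Finset.mul_sum, map_sum]
  refine Finset.sum_eq_zero fun i hi => ?_
  rw [Finset.mem_range] at hi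
  rw [← C_mul_X_pow_eq_monomial, mul_left_comm, ← smul_eq_C_mul, map_smul, hp i (by omega),
    smul_zero]

theorem ann_exists (L : (ZMod 2)[X] →ₗ[ZMod 2] ZMod 2) (n : ℕ) :
    ∃ p : (ZMod 2)[X], p ≠ 0 ∧ Ann L (2 * n + 1) (n + 1) p := by
  let T : degreeLT (ZMod 2) (n + 2) →ₗ[ZMod 2] (Fin (n + 1) → ZMod 2) :=
    LinearMap.pi fun i =>
      (L.comp (LinearMap.mulRight (ZMod 2) ((X : (ZMod 2)[X]) ^ (i : ℕ)))).comp
        (Submodule.subtype _)
  have hT : ∀ (p : degreeLT (ZMod 2) (n + 2)) (i : Fin (n + 1)),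
      T p i = L ((p : (ZMod 2)[X]) * X ^ (i : ℕ)) := fun p i => rfl
  have hfr : Module.finrank (ZMod 2) (degreeLT (ZMod 2) (n + 2)) = n + 2 := by
    rw [(degreeLTEquiv (ZMod 2) (n + 2)).finrank_eq]
    simp
  have : FiniteDimensional (ZMod 2) (degreeLT (ZMod 2) (n + 2)) :=
    Module.finite_of_finrank_pos (by rw [hfr]; omega)
  have hker : LinearMap.ker T ≠ ⊥ := by
    apply LinearMap.ker_ne_bot_of_finrank_lt
    rw [hfr]
    simp
  obtain ⟨p, hp, hp0⟩ := (Submodule.ne_bot_iff _).1 hker
  refine ⟨(p : (ZMod 2)[X]), ?_, ?_, ?_⟩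
  · intro h
    exact hp0 (Subtype.ext h)
  · have := mem_degreeLT.1 p.2
    by_cases h0 : (p : (ZMod 2)[X]) = 0
    · rw [h0]; simp
    · have h3 := (natDegree_lt_iff_degree_lt h0).2 this
      omega
  · intro h hh
    refine map_mul_eq_zero L n _ (fun i hi => ?_) h (by omega)
    have h4 : T p = 0 := hp
    have h5 := congrFun h4 ⟨i, by omega⟩
    rw [hT] at h5
    simpa using h5

theorem ann_rank (L : (ZMod 2)[X] →ₗ[ZMod 2] ZMod 2) (n : ℕ) (hn : 1 ≤ n)
    (hmin : ∀ p, Ann L (2 * n + 1) (n - 1) p → p = 0)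
    (v : Fin 4 → (ZMod 2)[X]) (hv : ∀ i, Ann L (2 * n + 1) (n + 2) (v i)) :
    ¬ LinearIndependent (ZMod 2) v := by
  intro hli
  -- the Hankel matrix
  let A : Matrix (Fin (n + 3)) (Fin n) (ZMod 2) := fun i j => L (X ^ ((i : ℕ) + (j : ℕ)))
  -- it is injective on the right
  have hinj : Function.Injective A.mulVecLin := by
    rw [injective_iff_map_eq_zero]
    intro c hc
    set h : (ZMod 2)[X] := ∑ j : Fin n, C (c j) * X ^ (j : ℕ) with hh
    have hdeg : h.natDegree ≤ n - 1 := by
      rw [hh]
      refine natDegree_sum_le_of_forall_le _ _ fun j _ => ?_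
      refine (natDegree_C_mul_X_pow_le _ _).trans ?_
      have := j.2
      omega
    have hL : ∀ i ≤ n + 2, L (h * X ^ i) = 0 := by
      intro i hi
      have h1 := congrFun hc ⟨i, by omega⟩
      rw [Matrix.mulVecLin_apply] at h1
      simp only [Matrix.mulVec, dotProduct, Pi.zero_apply, A] at h1
      rw [hh, Finset.sum_mul, map_sum, ← h1]
      refine Finset.sum_congr rfl fun j _ => ?_
      rw [mul_assoc, ← pow_add, ← smul_eq_C_mul, map_smul, smul_eq_mul, mul_comm, add_comm (j : ℕ) i]
    have h0 : h = 0 := by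
      apply hmin
      refine ⟨hdeg, fun q hq => ?_⟩
      exact map_mul_eq_zero L (n + 2) h hL q (by omega)
    funext j
    have h2 : h.coeff (j : ℕ) = c j := by
      rw [hh, finsetSum_coeff]
      rw [Finset.sum_eq_single j]
      · simp
      · intro b _ hb
        rw [coeff_C_mul_X_pow, if_neg]
        intro h3
        exact hb (Fin.ext h3.symm)
      · intro h3
        exact absurd (Finset.mem_univ _) h3
    rw [← h2, h0]
    simp
  have hrank : A.rank = n := by
    rw [Matrix.rank, LinearMap.finrank_range_of_inj hinj]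
    simp
  have hrankT : A.transpose.rank = n := by
    rw [Matrix.rank_transpose, hrank]
  have hker : Module.finrank (ZMod 2) (LinearMap.ker A.transpose.mulVecLin) = 3 := by
    have h1 := LinearMap.finrank_range_add_finrank_ker A.transpose.mulVecLin
    rw [Matrix.rank] at hrankT
    rw [hrankT] at h1
    simp at h1
    omega
  -- the four coefficient vectors lie in the left kernel
  let w : Fin 4 → (Fin (n + 3) → ZMod 2) := fun i j => (v i).coeff (j : ℕ)
  have hsum : ∀ i, v i = ∑ j : Fin (n + 3), C (w i j) * X ^ (j : ℕ) := by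
    intro i
    conv_lhs => rw [(v i).as_sum_range_C_mul_X_pow' (n := n + 3) (by have := (hv i).1; omega)]
    rw [Finset.sum_range]
  have hw : ∀ i, w i ∈ LinearMap.ker A.transpose.mulVecLin := by
    intro i
    rw [LinearMap.mem_ker, Matrix.mulVecLin_apply]
    funext k
    simp only [Matrix.mulVec, dotProduct, Pi.zero_apply]
    have h1 := (hv i).2 (X ^ (k : ℕ)) (by
      rw [natDegree_X_pow]
      have := k.2
      omega)
    rw [hsum i, Finset.sum_mul, map_sum] at h1
    rw [← h1]
    refine Finset.sum_congr rfl fun j _ => ?_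
    rw [mul_assoc, ← pow_add, ← smul_eq_C_mul, map_smul, smul_eq_mul, mul_comm,
      Matrix.transpose_apply]
  have hwli : LinearIndependent (ZMod 2) w := by
    rw [Fintype.linearIndependent_iff] at hli ⊢
    intro g hg
    apply hli
    have h1 : ∀ j : Fin (n + 3), ∑ i, g i * w i j = 0 := by
      intro j
      have h2 := congrFun hg j
      simpa [Finset.sum_apply] using h2
    calc ∑ i, g i • v i = ∑ i, ∑ j : Fin (n + 3), C (g i * w i j) * X ^ (j : ℕ) := by
          refine Finset.sum_congr rfl fun i _ => ?_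
          conv_lhs => rw [hsum i]
          rw [Finset.smul_sum]
          refine Finset.sum_congr rfl fun j _ => ?_
          rw [smul_eq_C_mul, ← mul_assoc, ← C_mul]
      _ = ∑ j : Fin (n + 3), C (∑ i, g i * w i j) * X ^ (j : ℕ) := by
          rw [Finset.sum_comm]
          refine Finset.sum_congr rfl fun j _ => ?_
          rw [map_sum, Finset.sum_mul]
      _ = 0 := by
          refine Finset.sum_eq_zero fun j _ => ?_
          rw [h1 j]
          simp
  let w' : Fin 4 → LinearMap.ker A.transpose.mulVecLin := fun i => ⟨w i, hw i⟩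
  have hw' : LinearIndependent (ZMod 2) w' := by
    apply LinearIndependent.of_comp (Submodule.subtype _)
    exact hwli
  have h4 := hw'.fintype_card_le_finrank
  rw [hker] at h4
  simp at h4

end H56.SP
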