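import Pool.Agent.H56.SP.Setup

/-! The end of the argument: a functional with the duplication property vanishes. -/

namespace H56.SP
open Polynomial

theorem comp_X_sq (p : (ZMod 2)[X]) : p.comp (X ^ 2) = p ^ 2 := by
  have := ZMod.expand_card (p := 2) p
  rw [expand_eq_comp_X_pow] at this
  exact this

theorem comp_S_zero (g : (ZMod 2)[X]) (h : g.comp (X ^ 2 + X) = 0) : g = 0 := by
  have hd : (g.comp (X ^ 2 + X)).natDegree = g.natDegree * 2 := by
    rw [natDegree_comp, natDegree_S]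
  rw [h, natDegree_zero] at hd
  have hg : g.natDegree = 0 := by omega
  rw [eq_C_of_natDegree_eq_zero hg, C_comp] at h
  rw [eq_C_of_natDegree_eq_zero hg, h]

/-- minimality passes to `lam L` -/
theorem no_small {L : (ZMod 2)[X] →ₗ[ZMod 2] ZMod 2} {n k1 : ℕ} (hL : Good L n)
    (hmin : ∀ j < k1, ∀ p, Ann L (2 * n + 1) j p → p = 0) (j : ℕ) (hj : 2 * j < k1)
    (hjn : j ≤ n) (p : (ZMod 2)[X]) (h : Ann (lam L) n j p) : p = 0 :=
  comp_S_zero p (hmin (2 * j) hj _ (hL.ann_of_lam j hjn p h))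

/-- one descent step with squares -/
theorem descent {L : (ZMod 2)[X] →ₗ[ZMod 2] ZMod 2} {n k1 k j e b : ℕ}
    (f g g1 q : (ZMod 2)[X]) (hf : Ann L (2 * n + 1) k1 f) (hlg : Ann (lam L) n k g)
    (hjk : j + e = k) (he : 1 ≤ e) (hb : 1 ≤ b) (hjn : j ≤ n) (hm : e + 2 * b + j ≤ n + 1)
    (hg1 : g1.natDegree ≤ j) (hg : g1 * X ^ e = g)
    (hq : X * (g1 * (X ^ 2 + X + 1) ^ b) ^ 2 = f * q)
    (hqd : q.natDegree + k1 ≤ 2 * j + 4 * b + 1) : Ann (lam L) n j g1 := by
  refine ⟨hg1, ?_⟩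
  intro F hF
  obtain ⟨A, B, hAB, hA, hB⟩ := split_X_D e b (n - j) he hb (by omega) F (by omega)
  have h1 : g1 * F = g * A + (g1 * (X ^ 2 + X + 1) ^ b) * B := by
    rw [hAB, ← hg]; ring
  rw [h1, map_add]
  have h2 : lam L (g * A) = 0 := hlg.2 A (by omega)
  have h3 : lam L ((g1 * (X ^ 2 + X + 1) ^ b) * B) = 0 := by
    rw [lam_apply, comp_X_sq, mul_pow, ← mul_assoc, hq, mul_assoc]
    apply hf.2
    have : (q * B ^ 2).natDegree ≤ q.natDegree + 2 * B.natDegree := by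
      refine natDegree_mul_le.trans ?_
      rw [natDegree_pow]
    omega
  rw [h2, h3, add_zero]

theorem natDegree_X_pow_mul (a c : ℕ) :
    ((X : (ZMod 2)[X]) ^ a * (X + 1) ^ c).natDegree ≤ a + c := by
  refine natDegree_mul_le.trans ?_
  rw [natDegree_X_pow, natDegree_pow]
  have : (X + 1 : (ZMod 2)[X]).natDegree = 1 := by
    have := natDegree_X_add_C (R := ZMod 2) 1
    rwa [C_1] at this
  rw [this]; omega

theorem natDegree_D : (X ^ 2 + X + 1 : (ZMod 2)[X]).natDegree = 2 := by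
  compute_degree!

theorem mono_ne_zero (a c : ℕ) : ((X : (ZMod 2)[X]) ^ a * (X + 1) ^ c) ≠ 0 :=
  mul_ne_zero (pow_ne_zero _ X_ne_zero) (pow_ne_zero _ Xp1_ne_zero)

theorem S_sq_pow (a : ℕ) :
    ((X ^ 2 + X : (ZMod 2)[X]) ^ 2) ^ a = X ^ (2 * a) * (X + 1) ^ (2 * a) := by
  have : (X ^ 2 + X : (ZMod 2)[X]) = X * (X + 1) := by ring
  rw [this, mul_pow, mul_pow, ← pow_mul, ← pow_mul]

/-- end of case A -/
theorem endA {L : (ZMod 2)[X] →ₗ[ZMod 2] ZMod 2} {n a : ℕ} (hL : Good L n) (ha : 1 ≤ a)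
    (hn : 8 * a ≤ n + 1)
    (hmin : ∀ j < 8 * a, ∀ p, Ann L (2 * n + 1) j p → p = 0)
    (f g : (ZMod 2)[X]) (hf : Ann L (2 * n + 1) (8 * a) f)
    (hlg : Ann (lam L) n (4 * a) g)
    (hfe : f = ((X ^ 2 + X) ^ 2 * (X ^ 2 + X + 1)) ^ a)
    (hge : g = X ^ (2 * a) * (X + 1) ^ a) : False := by
  obtain ⟨c, hc⟩ : ∃ c, 2 * ((a + 1) / 2) = a + c := ⟨2 * ((a + 1) / 2) - a, by omega⟩
  have h := descent (L := L) (n := n) (k1 := 8 * a) (k := 4 * a) (j := 3 * a) (e := a)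
    (b := (a + 1) / 2) f g (X ^ a * (X + 1) ^ a) (X * (X ^ 2 + X + 1) ^ c) hf hlg
    (by omega) ha (by omega) (by omega) (by omega)
    ((natDegree_X_pow_mul a a).trans (by omega))
    (by rw [hge, two_mul, pow_add]; ring)
    (by
      rw [hfe, mul_pow _ ((X ^ 2 + X + 1) ^ ((a + 1) / 2)) 2, ← pow_mul,
        mul_comm ((a + 1) / 2) 2, hc, pow_add, mul_pow ((X ^ 2 + X) ^ 2) (X ^ 2 + X + 1) a]
      rw [S_sq_pow a]
      ring)
    (by
      have : (X * (X ^ 2 + X + 1 : (ZMod 2)[X]) ^ c).natDegree ≤ 1 + 2 * c := by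
        refine natDegree_mul_le.trans ?_
        rw [natDegree_X, natDegree_pow, natDegree_D]
        omega
      omega)
  exact mono_ne_zero a a (no_small hL hmin (3 * a) (by omega) (by omega) _ h)

/-- end of case B -/
theorem endB {L : (ZMod 2)[X] →ₗ[ZMod 2] ZMod 2} {n a : ℕ} (hL : Good L n)
    (hn : 8 * a + 5 ≤ n + 1)
    (hmin : ∀ j < 8 * a + 5, ∀ p, Ann L (2 * n + 1) j p → p = 0)
    (f g : (ZMod 2)[X]) (hf : Ann L (2 * n + 1) (8 * a + 5) f)
    (hlg : Ann (lam L) n (4 * a + 3) g)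
    (hfe : f = (X ^ 2 + X) * (X ^ 2 + X + 1) * ((X ^ 2 + X) ^ 2 * (X ^ 2 + X + 1)) ^ a)
    (hge : g = X ^ (2 * a + 1) * (X + 1) ^ (a + 1)) : False := by
  obtain ⟨c, hc⟩ : ∃ c, 2 * ((a + 2) / 2) = a + 1 + c := ⟨2 * ((a + 2) / 2) - (a + 1), by omega⟩
  have h := descent (L := L) (n := n) (k1 := 8 * a + 5) (k := 4 * a + 3) (j := 3 * a + 2)
    (e := a + 1) (b := (a + 2) / 2) f g (X ^ a * (X + 1) ^ (a + 1))
    ((X + 1) * (X ^ 2 + X + 1) ^ c) hf hlg
    (by omega) (by omega) (by omega) (by omega) (by omega)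
    ((natDegree_X_pow_mul a (a + 1)).trans (by omega))
    (by rw [hge, show 2 * a + 1 = a + (a + 1) by ring, pow_add X a (a + 1)]; ring)
    (by
      rw [hfe, mul_pow _ ((X ^ 2 + X + 1) ^ ((a + 2) / 2)) 2, ← pow_mul (X ^ 2 + X + 1),
        mul_comm ((a + 2) / 2) 2, hc, pow_add (X ^ 2 + X + 1) (a + 1) c,
        mul_pow ((X ^ 2 + X) ^ 2) (X ^ 2 + X + 1) a]
      rw [S_sq_pow a]
      have : (X ^ 2 + X : (ZMod 2)[X]) = X * (X + 1) := by ring
      rw [this]
      ring)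
    (by
      have : ((X + 1) * (X ^ 2 + X + 1 : (ZMod 2)[X]) ^ c).natDegree ≤ 1 + 2 * c := by
        refine natDegree_mul_le.trans ?_
        have h1 : (X + 1 : (ZMod 2)[X]).natDegree = 1 := by
          have := natDegree_X_add_C (R := ZMod 2) 1
          rwa [C_1] at this
        rw [h1, natDegree_pow, natDegree_D]
        omega
      omega)
  exact mono_ne_zero a (a + 1) (no_small hL hmin (3 * a + 2) (by omega) (by omega) _ h)

/-- the case `n = 0` -/
theorem good_zero_zero {L : (ZMod 2)[X] →ₗ[ZMod 2] ZMod 2} (hL : Good L 0)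
    (p : (ZMod 2)[X]) (hp : p.natDegree ≤ 1) : L p = 0 := by
  have h1 : L 1 = 0 := by
    have := hL.comp_S 1 (by simp)
    simpa using this
  have hX : L X = 0 := by
    have := hL.rev 1 (by simp)
    rw [reflect_one] at this
    simpa [h1] using this
  obtain ⟨a, b, rfl⟩ : ∃ a b : ZMod 2, p = C a * X + C b := exists_eq_X_add_C_of_natDegree_le_one hp
  rw [map_add, ← smul_eq_C_mul, map_smul, hX, smul_zero, zero_add]
  have : (C b : (ZMod 2)[X]) = b • 1 := by rw [smul_eq_C_mul, mul_one]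
  rw [this, map_smul, h1, smul_zero]

theorem comp_ne_zero (p : (ZMod 2)[X]) (hp : p ≠ 0) : p.comp (X + 1) ≠ 0 := by
  intro h
  apply hp
  rw [← comp_comp_self p, h, zero_comp]

theorem sig_ne_zero (k : ℕ) (p : (ZMod 2)[X]) (hp : p ≠ 0) : sig k p ≠ 0 := by
  intro h
  unfold sig at h
  rw [reflect_eq_zero_iff] at h
  exact comp_ne_zero (p.reflect k) (by rwa [Ne, reflect_eq_zero_iff]) h

theorem reflect_succ (m : ℕ) (p : (ZMod 2)[X]) (hp : p.natDegree ≤ m) :
    p.reflect (m + 1) = X * p.reflect m := by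
  have := reflect_mul p (1 : (ZMod 2)[X]) (F := m) (G := 1) hp (by simp)
  rw [mul_one, reflect_one, pow_one] at this
  rw [this, mul_comm]

/-- case A -/
theorem caseA {L : (ZMod 2)[X] →ₗ[ZMod 2] ZMod 2} {n k : ℕ} (hL : Good L n) (hn : 1 ≤ n)
    (hk1 : 1 ≤ k) (hk : 2 * k ≤ n + 1)
    (hmin : ∀ j < 2 * k, ∀ p, Ann L (2 * n + 1) j p → p = 0)
    (f g : (ZMod 2)[X]) (hf0 : f ≠ 0) (hf : Ann L (2 * n + 1) (2 * k) f)
    (hft : f.comp (X + 1) = f) (hfr : f.reflect (2 * k) = f)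
    (hfg : f = g.comp (X ^ 2 + X)) (hg : g.natDegree ≤ k) : False := by
  have hg0 : g ≠ 0 := by
    rintro rfl
    exact hf0 (by rw [hfg, zero_comp])
  have hlg : Ann (lam L) n k g := hL.ann_lam k (2 * k) le_rfl g hg (by rw [← hfg]; exact hf)
  have hsg : sig k g = g := by
    refine ann_unique (lam L) n k ?_ hk _ _ (hL.ann_sig k (by omega) g hlg) hlg
      (sig_ne_zero k g hg0) hg0
    intro j hj p hp
    exact no_small hL hmin j (by omega) (by omega) p hp
  set v := g.reflect k with hv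
  have hvt : v.comp (X + 1) = v := by
    have := congrArg (fun p => reflect k p) hsg
    simp only [sig, reflect_reflect] at this
    exact this
  have hv0 : v ≠ 0 := by rwa [hv, Ne, reflect_eq_zero_iff]
  have hvd : v.natDegree ≤ k := by
    have := natDegree_reflect_le (N := k) (p := g)
    rw [max_eq_left hg] at this
    exact this
  have hphi : Phi k v = f := by
    rw [hv, ← Phi_reflect k g hg, ← hfg, hfr]
  obtain ⟨a, ha1, ha2⟩ := lemW k v hvd hv0 hvt (by rw [hphi, hft])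
  subst ha1
  have hge : g = X ^ (2 * a) * (X + 1) ^ a := by
    have h1 : g = v.reflect (4 * a) := by rw [hv, reflect_reflect]
    have h2 : (X ^ 2 + X : (ZMod 2)[X]) = X * (X + 1) := by ring
    rw [h1, ha2, h2, mul_pow, show 4 * a = 2 * a + a + a by ring, reflect_mono]
  have hfe : f = ((X ^ 2 + X) ^ 2 * (X ^ 2 + X + 1)) ^ a := by
    rw [← hphi, ha2, Phi_S_pow]
  have h8 : 2 * (4 * a) = 8 * a := by ring
  rw [h8] at hmin hf hk
  exact endA hL (by omega) hk hmin f g hf hlg hfe hge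

/-- case B -/
theorem caseB {L : (ZMod 2)[X] →ₗ[ZMod 2] ZMod 2} {n k' : ℕ} (hL : Good L n)
    (hk : 2 * k' + 1 ≤ n + 1)
    (hmin : ∀ j < 2 * k' + 1, ∀ p, Ann L (2 * n + 1) j p → p = 0)
    (f g : (ZMod 2)[X]) (hf0 : f ≠ 0) (hf : Ann L (2 * n + 1) (2 * k' + 1) f)
    (hft : f.comp (X + 1) = f) (hfr : f.reflect (2 * k' + 1) = f)
    (hfg : f = g.comp (X ^ 2 + X)) (hg : g.natDegree ≤ k')
    (hlg : Ann (lam L) n (k' + 1) g) (hsg : sig (k' + 1) g = g) : False := by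
  have hg0 : g ≠ 0 := by
    rintro rfl
    exact hf0 (by rw [hfg, zero_comp])
  set v := g.reflect (k' + 1) with hv
  have hvt : v.comp (X + 1) = v := by
    have := congrArg (fun p => reflect (k' + 1) p) hsg
    simp only [sig, reflect_reflect] at this
    exact this
  have hv0 : v ≠ 0 := by rwa [hv, Ne, reflect_eq_zero_iff]
  have hvd : v.natDegree ≤ k' + 1 := by
    have := natDegree_reflect_le (N := k' + 1) (p := g)
    rw [max_eq_left (by omega)] at this
    exact this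
  have hfd : f.natDegree ≤ 2 * k' + 1 := hf.1
  have hphi : Phi (k' + 1) v = X * f := by
    rw [hv, ← Phi_reflect (k' + 1) g (by omega), ← hfg,
      show 2 * (k' + 1) = (2 * k' + 1) + 1 by ring, reflect_succ _ f hfd, hfr]
  have hve : v.eval 0 = 0 := by
    rw [← Phi_eval_zero (k' + 1) v hvd, hphi]; simp
  obtain ⟨w, hw, hwt⟩ := tau_dvd v hvt hve
  have hw0 : w ≠ 0 := by
    rintro rfl
    exact hv0 (by rw [hw, mul_zero])
  have hwd0 : 2 + w.natDegree ≤ k' + 1 := by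
    rw [← natDegree_S_mul w hw0, ← hw]; exact hvd
  obtain ⟨i, hi⟩ : ∃ i, k' = i + 1 := ⟨k' - 1, by omega⟩
  have hwd : w.natDegree ≤ i := by omega
  have hphi2 : Phi (k' + 1) v = X ^ 2 * (X ^ 2 + X + 1) * Phi i w := by
    rw [hw, show k' + 1 = 2 + i by omega, Phi_mul 2 i _ w natDegree_S.le hwd, Phi_two_S]
  have hf1 : f = X * (X ^ 2 + X + 1) * Phi i w := by
    apply mul_left_cancel₀ (X_ne_zero (R := ZMod 2))
    rw [← hphi, hphi2]; ring
  have hstep : X * Phi i w = (X + 1) * (Phi i w).comp (X + 1) := by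
    apply mul_left_cancel₀ D_ne_zero
    have h := hft
    rw [hf1, mul_comp, mul_comp, D_comp, X_comp] at h
    calc (X ^ 2 + X + 1) * (X * Phi i w) = X * (X ^ 2 + X + 1) * Phi i w := by ring
      _ = (X + 1) * (X ^ 2 + X + 1) * (Phi i w).comp (X + 1) := h.symm
      _ = _ := by ring
  have he := eval_one_of_step _ hstep
  rw [Phi_eval_one i w hwd] at he
  rcases Nat.eq_zero_or_pos i with hi0 | hi0
  · apply hw0
    subst hi0
    rw [eq_C_of_natDegree_le_zero hwd, he, C_0]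
  obtain ⟨r, hr⟩ : ∃ r, i = r + 1 := ⟨i - 1, by omega⟩
  rw [hr] at hwd he hstep hf1
  have hwd' := natDegree_le_pred r w hwd he
  rw [Phi_succ r w hwd'] at hstep hf1
  have hinv : (Phi r w).comp (X + 1) = Phi r w := by
    have hne : (X * (X + 1) : (ZMod 2)[X]) ≠ 0 := mul_ne_zero X_ne_zero Xp1_ne_zero
    apply mul_left_cancel₀ hne
    rw [mul_comp, X_add_one_comp] at hstep
    calc X * (X + 1) * (Phi r w).comp (X + 1)
        = (X + 1) * (X * (Phi r w).comp (X + 1)) := by ring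
      _ = X * ((X + 1) * Phi r w) := hstep.symm
      _ = _ := by ring
  obtain ⟨a, ha1, ha2⟩ := lemW r w hwd' hw0 hwt hinv
  have hka : k' + 1 = 4 * a + 3 := by omega
  have hk1a : 2 * k' + 1 = 8 * a + 5 := by omega
  have hve2 : v = X ^ (a + 1) * (X + 1) ^ (a + 1) := by
    rw [hw, ha2]
    have h2 : (X ^ 2 + X : (ZMod 2)[X]) = X * (X + 1) := by ring
    rw [← pow_succ', h2, mul_pow]
  have hge : g = X ^ (2 * a + 1) * (X + 1) ^ (a + 1) := by
    have h1 : g = v.reflect (k' + 1) := by rw [hv, reflect_reflect]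
    rw [h1, hve2, show k' + 1 = (2 * a + 1) + (a + 1) + (a + 1) by omega, reflect_mono]
  have hfe : f = (X ^ 2 + X) * (X ^ 2 + X + 1) * ((X ^ 2 + X) ^ 2 * (X ^ 2 + X + 1)) ^ a := by
    rw [hf1, ha2, ha1, Phi_S_pow]; ring
  rw [hk1a] at hmin hf hk
  rw [hka] at hlg
  exact endB hL hk hmin f g hf hlg hfe hge

end H56.SP
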