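import Mathlib

/-!
The transform `Phi k p`: the binary form of degree `k` with dehomogenisation `p`
(`p = sum p_i Y^i`, form `sum p_i Y^i X^(k-i)`) evaluated at `Y = X^2`, `X = X+1`.
-/

namespace H56.SP
open Polynomial

/-- the form of degree `k` given by `p`, evaluated at `(X^2, X+1)` -/
noncomputable def Phi (k : ℕ) (p : (ZMod 2)[X]) : (ZMod 2)[X] :=
  MvPolynomial.aeval ![X ^ 2, X + 1] (p.homogenize k)

theorem Phi_add (k : ℕ) (p q : (ZMod 2)[X]) : Phi k (p + q) = Phi k p + Phi k q := by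
  simp [Phi]

theorem Phi_zero (k : ℕ) : Phi k 0 = 0 := by
  simp [Phi]

theorem Phi_mul (k l : ℕ) (p q : (ZMod 2)[X]) (hp : p.natDegree ≤ k) (hq : q.natDegree ≤ l) :
    Phi (k + l) (p * q) = Phi k p * Phi l q := by
  simp [Phi, homogenize_mul p q hp hq]

theorem Phi_C_mul_X_pow (k i : ℕ) (hi : i ≤ k) (c : ZMod 2) :
    Phi k (C c * X ^ i) = C c * (X ^ 2) ^ i * (X + 1) ^ (k - i) := by
  rw [Phi, homogenize_C_mul, homogenize_X_pow hi]
  simp [mul_assoc]

/-- induction principle for polynomials of bounded degree -/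
theorem phi_ind (k : ℕ) (P : (ZMod 2)[X] → Prop) (h0 : P 0)
    (hm : ∀ i ≤ k, ∀ c : ZMod 2, P (C c * X ^ i)) (ha : ∀ p q, P p → P q → P (p + q))
    (p : (ZMod 2)[X]) (hp : p.natDegree ≤ k) : P p := by
  refine Polynomial.induction_with_natDegree_le P k h0 ?_ ?_ p hp
  · intro i c _ hi
    exact hm i hi c
  · intro p q _ _ h1 h2
    exact ha p q h1 h2

theorem Phi_eval_zero (k : ℕ) (p : (ZMod 2)[X]) (hp : p.natDegree ≤ k) :
    (Phi k p).eval 0 = p.eval 0 := by
  revert p
  refine phi_ind k _ ?_ ?_ ?_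
  · simp [Phi_zero]
  · intro i hi c
    rw [Phi_C_mul_X_pow k i hi c]
    rcases Nat.eq_zero_or_pos i with h | h
    · subst h; simp
    · simp [h.ne']
  · intro p q h1 h2
    rw [Phi_add, eval_add, eval_add, h1, h2]

theorem one_add_one_zmod : (1 : ZMod 2) + 1 = 0 := by decide

theorem Phi_eval_one (k : ℕ) (p : (ZMod 2)[X]) (hp : p.natDegree ≤ k) :
    (Phi k p).eval 1 = p.coeff k := by
  revert p
  refine phi_ind k _ ?_ ?_ ?_
  · simp [Phi_zero]
  · intro i hi c
    rw [Phi_C_mul_X_pow k i hi c]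
    rcases Nat.eq_or_lt_of_le hi with h | h
    · subst h; simp
    · have h' : k - i ≠ 0 := by omega
      simp [one_add_one_zmod, h', coeff_X_pow, h.ne']
  · intro p q h1 h2
    rw [Phi_add, eval_add, coeff_add, h1, h2]

theorem Phi_succ (k : ℕ) (p : (ZMod 2)[X]) (hp : p.natDegree ≤ k) :
    Phi (k + 1) p = (X + 1) * Phi k p := by
  revert p
  refine phi_ind k _ ?_ ?_ ?_
  · simp [Phi_zero]
  · intro i hi c
    rw [Phi_C_mul_X_pow k i hi c, Phi_C_mul_X_pow (k + 1) i (by omega) c,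
      show k + 1 - i = (k - i) + 1 by omega, pow_succ]
    ring
  · intro p q h1 h2
    rw [Phi_add, Phi_add, h1, h2]
    ring

theorem natDegree_le_pred (k : ℕ) (p : (ZMod 2)[X]) (hp : p.natDegree ≤ k + 1)
    (h : p.coeff (k + 1) = 0) : p.natDegree ≤ k := by
  rw [natDegree_le_iff_coeff_eq_zero] at hp ⊢
  intro N hN
  rcases Nat.eq_or_lt_of_le (Nat.succ_le_of_lt hN) with h' | h'
  · rw [← h']; exact h
  · exact hp N h'

theorem Phi_two_S : Phi 2 (X ^ 2 + X) = X ^ 2 * (X ^ 2 + X + 1) := by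
  have h1 : (X ^ 2 + X : (ZMod 2)[X]) = C 1 * X ^ 2 + C 1 * X ^ 1 := by simp
  rw [h1, Phi_add, Phi_C_mul_X_pow 2 2 le_rfl, Phi_C_mul_X_pow 2 1 (by norm_num)]
  simp
  ring

theorem Phi_sq (k : ℕ) (p : (ZMod 2)[X]) (hp : p.natDegree ≤ k) :
    Phi (k + k) (p ^ 2) = (Phi k p) ^ 2 := by
  rw [sq, sq, Phi_mul k k p p hp hp]

theorem two_nat_cast_even (m : ℕ) (hm : Even m) : ((m : ℕ) : (ZMod 2)) = 0 := by
  rcases hm with ⟨r, rfl⟩
  push_cast
  exact CharTwo.add_self_eq_zero _

theorem natDegree_derivative_le_of_even (k : ℕ) (hk : Even k) (p : (ZMod 2)[X])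
    (hp : p.natDegree ≤ k + 2) : (derivative p).natDegree ≤ k := by
  refine natDegree_le_pred k _ ?_ ?_
  · refine (natDegree_derivative_le p).trans ?_
    omega
  · rw [coeff_derivative]
    have h : ((k + 1 : ℕ) : ZMod 2) + 1 = ((k + 2 : ℕ) : ZMod 2) := by
      push_cast
      ring
    rw [h, two_nat_cast_even (k + 2) (by exact hk.add (by decide)), mul_zero]

/-- derivative formula: `k` even -/
theorem Phi_deriv (k : ℕ) (hk : Even k) (p : (ZMod 2)[X]) (hp : p.natDegree ≤ k + 2) :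
    derivative (Phi (k + 2) p) = X ^ 2 * Phi k (derivative p) := by
  revert p
  refine phi_ind (k + 2) _ ?_ ?_ ?_
  · simp [Phi_zero]
  · intro i hi c
    rw [Phi_C_mul_X_pow (k + 2) i hi c]
    have hsq : derivative ((X ^ 2) ^ i : (ZMod 2)[X]) = 0 := by
      rw [← pow_mul, derivative_X_pow, two_nat_cast_even (2 * i) (even_two_mul i)]
      simp
    have hd : derivative (C c * (X ^ 2) ^ i * (X + 1) ^ (k + 2 - i) : (ZMod 2)[X])
        = C c * (X ^ 2) ^ i * (C ((k + 2 - i : ℕ) : ZMod 2) * (X + 1) ^ (k + 2 - i - 1)) := by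
      rw [derivative_mul, derivative_mul, hsq, derivative_C, derivative_pow]
      simp
    rw [hd]
    rcases Nat.even_or_odd i with he | ho
    · have h1 : Even (k + 2 - i) := by
        rcases hk with ⟨r, rfl⟩
        rcases he with ⟨s, rfl⟩
        exact ⟨r + 1 - s, by omega⟩
      rw [two_nat_cast_even _ h1, derivative_C_mul_X_pow, two_nat_cast_even _ he]
      simp [Phi_zero]
    · rcases ho with ⟨s, hs⟩
      rcases hk with ⟨r, hr⟩
      have hi1 : i - 1 ≤ k := by omega
      have h1 : ((k + 2 - i : ℕ) : ZMod 2) = 1 := by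
        have h2 : k + 2 - i = 2 * (r - s) + 1 := by omega
        rw [h2]
        push_cast
        have h3 : (2 : ZMod 2) = 0 := by decide
        rw [h3, zero_mul, zero_add]
      have h4 : ((i : ℕ) : ZMod 2) = 1 := by
        rw [hs]
        push_cast
        have h3 : (2 : ZMod 2) = 0 := by decide
        rw [h3, zero_mul, zero_add]
      rw [h1, derivative_C_mul_X_pow, h4, mul_one, Phi_C_mul_X_pow k (i - 1) hi1 c]
      have h5 : i = (i - 1) + 1 := by omega
      have h6 : k + 2 - i - 1 = k - (i - 1) := by omega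
      rw [h6]
      have h7 : ((X ^ 2) ^ i : (ZMod 2)[X]) = (X ^ 2) ^ (i - 1) * X ^ 2 := by
        conv_lhs => rw [h5, pow_succ]
      rw [h7]
      simp only [map_one, one_mul]
      ring
  · intro p q h1 h2
    rw [Phi_add, derivative_add, derivative_add, Phi_add, h1, h2]
    ring

theorem reflect_S : ((X ^ 2 + X : (ZMod 2)[X])).reflect 2 = X + 1 := by
  ext j
  rw [coeff_reflect]
  rcases Nat.lt_or_ge 2 j with h | h
  · have h' : revAt 2 j = j := revAt_eq_self_of_lt h
    rw [h']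
    simp only [coeff_add, coeff_X_pow, coeff_X, coeff_one]
    rw [if_neg (by omega), if_neg (by omega), if_neg (by omega)]
  · rw [revAt_le h]
    simp only [coeff_add, coeff_X_pow, coeff_X, coeff_one]
    interval_cases j <;> simp

theorem natDegree_S_le : ((X ^ 2 + X : (ZMod 2)[X])).natDegree ≤ 2 := by
  refine (natDegree_add_le _ _).trans ?_
  rw [natDegree_X_pow, natDegree_X]
  simp

theorem natDegree_S_pow_le (i : ℕ) : ((X ^ 2 + X : (ZMod 2)[X]) ^ i).natDegree ≤ 2 * i := by
  refine natDegree_pow_le.trans ?_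
  have := Nat.mul_le_mul_left i natDegree_S_le
  rw [Nat.mul_comm 2 i]
  exact this

theorem reflect_S_pow (i : ℕ) :
    ((X ^ 2 + X : (ZMod 2)[X]) ^ i).reflect (2 * i) = (X + 1) ^ i := by
  induction i with
  | zero => simp
  | succ i ih =>
    rw [pow_succ, show 2 * (i + 1) = 2 * i + 2 by ring,
      reflect_mul _ _ (natDegree_S_pow_le i) natDegree_S_le, ih, reflect_S, pow_succ]

theorem Phi_reflect (k : ℕ) (g : (ZMod 2)[X]) (hg : g.natDegree ≤ k) :
    (g.comp (X ^ 2 + X)).reflect (2 * k) = Phi k (g.reflect k) := by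
  revert g
  refine phi_ind k _ ?_ ?_ ?_
  · simp [Phi_zero]
  · intro i hi c
    rw [reflect_C_mul_X_pow, revAt_le hi, Phi_C_mul_X_pow k (k - i) (by omega) c,
      C_mul_comp, X_pow_comp, reflect_C_mul]
    have h1 : ((X ^ 2 + X : (ZMod 2)[X]) ^ i).reflect (2 * k)
        = (X + 1) ^ i * X ^ (2 * (k - i)) := by
      have h2 := reflect_mul ((X ^ 2 + X : (ZMod 2)[X]) ^ i) 1 (F := 2 * i)
        (G := 2 * (k - i)) (natDegree_S_pow_le i) (by simp)
      rw [mul_one, show 2 * i + 2 * (k - i) = 2 * k by omega, reflect_S_pow] at h2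
      rw [h2]
      congr 1
      simp
    rw [h1, show k - (k - i) = i by omega, pow_mul]
    ring
  · intro p q h1 h2
    rw [add_comp, reflect_add, reflect_add, Phi_add, h1, h2]

/-- injectivity -/
theorem Phi_eq_zero (k : ℕ) (p : (ZMod 2)[X]) (hp : p.natDegree ≤ k) (h : Phi k p = 0) :
    p = 0 := by
  induction k generalizing p with
  | zero =>
    have h0 := Phi_eval_zero 0 p hp
    rw [h, eval_zero] at h0
    have h1 : p = C (p.coeff 0) := eq_C_of_natDegree_le_zero hp
    rw [h1]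
    rw [coeff_zero_eq_eval_zero, ← h0, C_0]
  | succ k ih =>
    have h0 := Phi_eval_zero (k + 1) p hp
    rw [h, eval_zero] at h0
    have h1 : X ∣ p := by
      rw [X_dvd_iff, coeff_zero_eq_eval_zero, ← h0]
    rcases h1 with ⟨q, rfl⟩
    rcases eq_or_ne q 0 with hq | hq
    · rw [hq, mul_zero]
    have hqd : q.natDegree ≤ k := by
      rw [natDegree_X_mul hq] at hp
      omega
    have hX : Phi 1 (X : (ZMod 2)[X]) = X ^ 2 := by
      have h2 := Phi_C_mul_X_pow 1 1 le_rfl 1
      simpa using h2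
    have h3 : Phi (k + 1) (X * q) = X ^ 2 * Phi k q := by
      rw [Nat.add_comm k 1, Phi_mul 1 k X q (by rw [natDegree_X]) hqd, hX]
    rw [h3] at h
    have h4 : Phi k q = 0 := by
      rcases mul_eq_zero.mp h with h5 | h5
      · exact absurd h5 (pow_ne_zero 2 X_ne_zero)
      · exact h5
    rw [ih q hqd h4, mul_zero]

end H56.SP
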