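import Pool.Agent.H56.SP.Setup1

/-! Setup, part 2: the swap `sig` and the functional `lam`. -/

namespace H56.SP
open Polynomial

theorem natDegree_reflect_le_of_le {k : ℕ} {p : (ZMod 2)[X]} (hp : p.natDegree ≤ k) :
    (p.reflect k).natDegree ≤ k :=
  natDegree_reflect_le.trans (max_le le_rfl hp)

theorem natDegree_X_add_one_le : ((X : (ZMod 2)[X]) + 1).natDegree ≤ 1 := by
  compute_degree

theorem natDegree_comp_X_add_one_le {k : ℕ} {p : (ZMod 2)[X]} (hp : p.natDegree ≤ k) :
    (p.comp (X + 1)).natDegree ≤ k := by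
  refine natDegree_comp_le.trans ?_
  calc p.natDegree * ((X : (ZMod 2)[X]) + 1).natDegree ≤ k * 1 :=
        Nat.mul_le_mul hp natDegree_X_add_one_le
    _ = k := mul_one k

theorem two_zero_S2 : (2 : (ZMod 2)[X]) = 0 := by
  have : ((2 : ℕ) : (ZMod 2)[X]) = 0 := CharP.cast_eq_zero _ 2
  exact_mod_cast this

theorem X_add_one_comp_S2 : ((X : (ZMod 2)[X]) + 1).comp (X + 1) = X := by
  simp only [add_comp, X_comp, one_comp]
  linear_combination two_zero_S2

theorem comp_X_add_one_twice (p : (ZMod 2)[X]) : (p.comp (X + 1)).comp (X + 1) = p := by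
  rw [comp_assoc, X_add_one_comp_S2, comp_X]

/-- reflection of `X F(X^2)` in degree `2n+1` -/
theorem reflect_X_mul_comp_sq (n : ℕ) (F : (ZMod 2)[X]) (hF : F.natDegree ≤ n) :
    (X * F.comp (X ^ 2)).reflect (2 * n + 1) = (F.reflect n).comp (X ^ 2) := by
  revert F
  refine phi_ind n _ ?_ ?_ ?_
  · simp
  · intro i hi c
    have e1 : X * (C c * X ^ i : (ZMod 2)[X]).comp (X ^ 2) = C c * X ^ (2 * i + 1) := by
      simp only [mul_comp, C_comp, pow_comp, X_comp]
      ring
    rw [e1, reflect_C_mul_X_pow, reflect_C_mul_X_pow, revAt_le (by omega), revAt_le hi]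
    simp only [mul_comp, C_comp, pow_comp, X_comp]
    rw [← pow_mul, show 2 * n + 1 - (2 * i + 1) = 2 * (n - i) by omega]
  · intro p q h1 h2
    rw [add_comp, mul_add, reflect_add, h1, h2, reflect_add, add_comp]

/-- `lam L F = L ((F.reflect n)(X^2))` -/
theorem Good.lam_eq {L : (ZMod 2)[X] →ₗ[ZMod 2] ZMod 2} {n : ℕ} (hL : Good L n)
    (F : (ZMod 2)[X]) (hF : F.natDegree ≤ n) : lam L F = L ((F.reflect n).comp (X ^ 2)) := by
  have hd : (X * F.comp (X ^ 2)).natDegree ≤ 2 * n + 1 := by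
    refine natDegree_mul_le.trans ?_
    have h1 : (F.comp (X ^ 2)).natDegree ≤ n * 2 := by
      refine natDegree_comp_le.trans ?_
      rw [natDegree_X_pow]
      exact Nat.mul_le_mul_right 2 hF
    have h2 : (X : (ZMod 2)[X]).natDegree ≤ 1 := natDegree_X_le
    omega
  rw [lam_apply, ← hL.rev _ hd, reflect_X_mul_comp_sq n F hF]

theorem sig_natDegree_le (k : ℕ) (p : (ZMod 2)[X]) (hp : p.natDegree ≤ k) :
    (sig k p).natDegree ≤ k :=
  natDegree_reflect_le_of_le (natDegree_comp_X_add_one_le (natDegree_reflect_le_of_le hp))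

theorem Good.lam_sig {L : (ZMod 2)[X] →ₗ[ZMod 2] ZMod 2} {n : ℕ} (hL : Good L n)
    (F : (ZMod 2)[X]) (hF : F.natDegree ≤ n) : lam L (sig n F) = lam L F := by
  rw [hL.lam_eq (sig n F) (sig_natDegree_le n F hF), hL.lam_eq F hF, sig, reflect_reflect]
  have h1 : ((F.reflect n).comp (X + 1)).comp (X ^ 2) = ((F.reflect n).comp (X ^ 2)).comp (X + 1) := by
    rw [comp_assoc, comp_assoc]
    congr 1
    simp only [add_comp, X_comp, one_comp, pow_comp]
    linear_combination (-X) * two_zero_S2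
  rw [h1]
  apply hL.tau
  refine natDegree_comp_le.trans ?_
  rw [natDegree_X_pow]
  have := natDegree_reflect_le_of_le hF
  omega

theorem sig_sig (k : ℕ) (p : (ZMod 2)[X]) (_hp : p.natDegree ≤ k) : sig k (sig k p) = p := by
  rw [sig, sig, reflect_reflect, comp_X_add_one_twice, reflect_reflect]

theorem sig_mul (k l : ℕ) (p q : (ZMod 2)[X]) (hp : p.natDegree ≤ k) (hq : q.natDegree ≤ l) :
    sig (k + l) (p * q) = sig k p * sig l q := by
  rw [sig, reflect_mul p q hp hq, mul_comp, reflect_mul _ _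
    (natDegree_comp_X_add_one_le (natDegree_reflect_le_of_le hp))
    (natDegree_comp_X_add_one_le (natDegree_reflect_le_of_le hq))]
  rfl

theorem Good.ann_sig {L : (ZMod 2)[X] →ₗ[ZMod 2] ZMod 2} {n : ℕ} (hL : Good L n) (k : ℕ)
    (hk : k ≤ n) (g : (ZMod 2)[X]) (h : Ann (lam L) n k g) : Ann (lam L) n k (sig k g) := by
  refine ⟨sig_natDegree_le k g h.1, fun u hu => ?_⟩
  have hu' : u.natDegree ≤ n - k := by omega
  have hd : (sig k g * u).natDegree ≤ n := by
    refine natDegree_mul_le.trans ?_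
    have := sig_natDegree_le k g h.1
    omega
  rw [← hL.lam_sig _ hd]
  have hn : n = k + (n - k) := by omega
  have e : sig n (sig k g * u) = g * sig (n - k) u := by
    conv_lhs => rw [hn]
    rw [sig_mul k (n - k) _ _ (sig_natDegree_le k g h.1) hu', sig_sig k g h.1]
  rw [e]
  apply h.2
  have := sig_natDegree_le (n - k) u hu'
  omega

end H56.SP
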