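import Pool.Agent.H56.SP.PH

/-! Part 3 of the setup: explicit reflections and a splitting. -/

namespace H56.SP
open Polynomial

theorem s3_natDegree_X_add_one_le : (X + 1 : (ZMod 2)[X]).natDegree ≤ 1 := by
  rw [← C_1]; exact (natDegree_X_add_C 1).le

theorem s3_natDegree_X_add_one_pow_le (c : ℕ) : ((X + 1 : (ZMod 2)[X]) ^ c).natDegree ≤ c := by
  refine natDegree_pow_le.trans ?_
  calc c * (X + 1 : (ZMod 2)[X]).natDegree ≤ c * 1 :=
        Nat.mul_le_mul_left c s3_natDegree_X_add_one_le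
    _ = c := mul_one c

theorem s3_reflect_X_add_one : (X + 1 : (ZMod 2)[X]).reflect 1 = X + 1 := by
  have h1 : (X : (ZMod 2)[X]).reflect 1 = 1 := by simp
  have h2 : (1 : (ZMod 2)[X]).reflect 1 = X := by simp
  rw [reflect_add, h1, h2, add_comm]

theorem s3_reflect_X_add_one_pow (c : ℕ) :
    ((X + 1 : (ZMod 2)[X]) ^ c).reflect c = (X + 1) ^ c := by
  induction c with
  | zero => simp
  | succ c ih =>
    rw [pow_succ, reflect_mul _ _ (s3_natDegree_X_add_one_pow_le c) s3_natDegree_X_add_one_le,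
      ih, s3_reflect_X_add_one]

theorem s3_reflect_X_pow (a b : ℕ) : ((X : (ZMod 2)[X]) ^ b).reflect (a + b) = X ^ a := by
  simp

/-- the form `X^a Y^b Z^c`: reflection of `X^b (X+1)^c` in degree `a+b+c` is `X^a (X+1)^c` -/
theorem reflect_mono (a b c : ℕ) :
    ((X : (ZMod 2)[X]) ^ b * (X + 1) ^ c).reflect (a + b + c) = X ^ a * (X + 1) ^ c := by
  rw [reflect_mul _ _ (by rw [natDegree_X_pow]; omega) (s3_natDegree_X_add_one_pow_le c),
    s3_reflect_X_add_one_pow, s3_reflect_X_pow]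

theorem s3_natDegree_D_le : (X ^ 2 + X + 1 : (ZMod 2)[X]).natDegree ≤ 2 := by
  refine (natDegree_add_le _ _).trans ?_
  rw [natDegree_one, Nat.max_zero]
  exact natDegree_S_le

theorem s3_natDegree_D_pow_le (b : ℕ) :
    ((X ^ 2 + X + 1 : (ZMod 2)[X]) ^ b).natDegree ≤ 2 * b := by
  refine natDegree_pow_le.trans ?_
  rw [Nat.mul_comm 2 b]
  exact Nat.mul_le_mul_left b s3_natDegree_D_le

theorem s3_coprime : IsCoprime (X : (ZMod 2)[X]) (X ^ 2 + X + 1) := by
  refine ⟨X + 1, 1, ?_⟩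
  have h2 : (2 : (ZMod 2)[X]) = 0 := by
    have : (1 : (ZMod 2)[X]) + 1 = 0 := CharTwo.add_self_eq_zero _
    rw [← this]; norm_num
  calc (X + 1) * X + 1 * (X ^ 2 + X + 1) = 1 + 2 * (X ^ 2 + X : (ZMod 2)[X]) := by ring
    _ = 1 := by rw [h2, zero_mul, add_zero]

/-- every polynomial of degree at most `m` is `X^e A + (X^2+X+1)^b B` with good degrees -/
theorem split_X_D (e b m : ℕ) (he : 1 ≤ e) (hb : 1 ≤ b) (hm : e + 2 * b ≤ m + 1) (F : (ZMod 2)[X])
    (hF : F.natDegree ≤ m) :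
    ∃ A B : (ZMod 2)[X], F = X ^ e * A + (X ^ 2 + X + 1) ^ b * B ∧
      A.natDegree + e ≤ m ∧ B.natDegree + 2 * b ≤ m := by
  obtain ⟨u, v, huv⟩ : IsCoprime ((X : (ZMod 2)[X]) ^ e) ((X ^ 2 + X + 1) ^ b) :=
    s3_coprime.pow
  have hmon : (X ^ e : (ZMod 2)[X]).Monic := monic_X_pow e
  have hne1 : (X ^ e : (ZMod 2)[X]) ≠ 1 := by
    intro h
    have h1 := congrArg natDegree h
    rw [natDegree_X_pow, natDegree_one] at h1
    omega
  set B : (ZMod 2)[X] := (F * v) %ₘ (X ^ e) with hB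
  set A : (ZMod 2)[X] := F * u + (F * v) /ₘ (X ^ e) * (X ^ 2 + X + 1) ^ b with hA
  have hdiv : B + X ^ e * ((F * v) /ₘ (X ^ e)) = F * v := modByMonic_add_div (F * v) (X ^ e)
  have hsum : F = X ^ e * A + (X ^ 2 + X + 1) ^ b * B := by
    have h1 : F = F * (u * X ^ e + v * (X ^ 2 + X + 1) ^ b) := by rw [huv, mul_one]
    calc F = F * (u * X ^ e + v * (X ^ 2 + X + 1) ^ b) := h1
      _ = X ^ e * (F * u) + (X ^ 2 + X + 1) ^ b * (F * v) := by ring
      _ = X ^ e * (F * u) + (X ^ 2 + X + 1) ^ b * (B + X ^ e * ((F * v) /ₘ (X ^ e))) := by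
          rw [hdiv]
      _ = X ^ e * A + (X ^ 2 + X + 1) ^ b * B := by rw [hA]; ring
  have hBd : B.natDegree < e := by
    have h := natDegree_modByMonic_lt (F * v) hmon hne1
    rw [natDegree_X_pow] at h
    exact h
  refine ⟨A, B, hsum, ?_, by omega⟩
  rcases eq_or_ne A 0 with h0 | h0
  · rw [h0, natDegree_zero]; omega
  · have h1 : (X ^ e * A).natDegree ≤ m := by
      have h2 : X ^ e * A = F - (X ^ 2 + X + 1) ^ b * B := by
        rw [eq_sub_iff_add_eq]; exact hsum.symm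
      rw [h2]
      refine (natDegree_sub_le _ _).trans (max_le hF ?_)
      refine natDegree_mul_le.trans ?_
      have h3 := s3_natDegree_D_pow_le b
      omega
    rw [natDegree_mul (pow_ne_zero e X_ne_zero) h0, natDegree_X_pow] at h1
    omega

end H56.SP
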