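import Mathlib

/-!
Annihilators of a linear functional on polynomials of bounded degree over `ZMod 2`, and the
uniqueness of the minimal annihilator.
-/

namespace H56.SP
open Polynomial

/-- `p`, as a form of degree `k`, annihilates the functional `L` on forms of degree `N` -/
def Ann (L : (ZMod 2)[X] →ₗ[ZMod 2] ZMod 2) (N k : ℕ) (p : (ZMod 2)[X]) : Prop :=
  p.natDegree ≤ k ∧ ∀ h : (ZMod 2)[X], h.natDegree + k ≤ N → L (p * h) = 0

theorem ann_aux (L : (ZMod 2)[X] →ₗ[ZMod 2] ZMod 2) (N k : ℕ) (h2 : 2 * k ≤ N + 1)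
    (g p q : (ZMod 2)[X]) (hg : g ≠ 0) (hcop : IsCoprime p q) (he : 1 ≤ q.natDegree)
    (hle : p.natDegree ≤ q.natDegree) (hp : Ann L N k (g * p)) (hq : Ann L N k (g * q)) :
    q.natDegree ≤ k ∧ Ann L N (k - q.natDegree) g := by
  have hq0 : q ≠ 0 := by
    rintro rfl
    simp at he
  have hdeg : (g * q).natDegree = g.natDegree + q.natDegree := natDegree_mul hg hq0
  have hk : g.natDegree + q.natDegree ≤ k := by
    rw [← hdeg]; exact hq.1
  have hek : q.natDegree ≤ k := by omega
  refine ⟨hek, by omega, ?_⟩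
  intro h hh
  obtain ⟨u, v, huv⟩ := hcop
  -- h = (h u) p + (h v) q
  set a0 := h * u with ha0
  set b0 := h * v with hb0
  have h1 : a0 * p + b0 * q = h := by
    rw [ha0, hb0]
    calc h * u * p + h * v * q = h * (u * p + v * q) := by ring
      _ = h := by rw [huv, mul_one]
  set a := a0 % q with ha
  set b := b0 + (a0 / q) * p with hb
  have hdiv : q * (a0 / q) + a0 % q = a0 := EuclideanDomain.div_add_mod a0 q
  have h3 : a * p + b * q = h := by
    rw [← h1, ha, hb]
    calc a0 % q * p + (b0 + a0 / q * p) * q = (q * (a0 / q) + a0 % q) * p + b0 * q := by ring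
      _ = a0 * p + b0 * q := by rw [hdiv]
  have hadeg : a.natDegree < q.natDegree := by
    rw [ha]
    exact natDegree_mod_lt a0 (by omega)
  have hbdeg : b.natDegree + k ≤ N := by
    by_cases hb0' : b = 0
    · rw [hb0']; simp; omega
    · have h4 : b * q = h - a * p := by rw [← h3]; ring
      have h5 : (b * q).natDegree = b.natDegree + q.natDegree := natDegree_mul hb0' hq0
      have h6 : (h - a * p).natDegree ≤ max h.natDegree (a * p).natDegree := natDegree_sub_le _ _
      have h7 : (a * p).natDegree ≤ a.natDegree + p.natDegree := natDegree_mul_le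
      rw [← h4, h5] at h6
      rcases le_max_iff.mp h6 with h8 | h8
      · omega
      · omega
  have hadeg' : a.natDegree + k ≤ N := by omega
  have h9 : g * h = (g * p) * a + (g * q) * b := by
    rw [← h3]; ring
  rw [h9, map_add, hp.2 a hadeg', hq.2 b hbdeg, add_zero]

theorem eq_one_of_natDegree_eq_zero (p : (ZMod 2)[X]) (hp : p ≠ 0) (h : p.natDegree = 0) :
    p = 1 := by
  obtain ⟨c, hc⟩ := natDegree_eq_zero.mp h
  rw [← hc]
  have hc0 : c ≠ 0 := by
    rintro rfl
    apply hp
    rw [← hc, C_0]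
  have : c = 1 := by
    revert hc0
    clear hc
    revert c
    decide
  rw [this, C_1]

theorem ann_unique (L : (ZMod 2)[X] →ₗ[ZMod 2] ZMod 2) (N k : ℕ)
    (hmin : ∀ j < k, ∀ p, Ann L N j p → p = 0) (h2 : 2 * k ≤ N + 1)
    (p q : (ZMod 2)[X]) (hp : Ann L N k p) (hq : Ann L N k q) (hp0 : p ≠ 0) (hq0 : q ≠ 0) :
    p = q := by
  classical
  set g := EuclideanDomain.gcd p q with hgdef
  obtain ⟨p', hp'⟩ := EuclideanDomain.gcd_dvd_left p q
  obtain ⟨q', hq'⟩ := EuclideanDomain.gcd_dvd_right p q
  rw [← hgdef] at hp' hq'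
  have hg : g ≠ 0 := by
    intro h
    apply hp0
    rw [hp', h, zero_mul]
  have hp'0 : p' ≠ 0 := by
    rintro rfl
    apply hp0
    rw [hp', mul_zero]
  have hq'0 : q' ≠ 0 := by
    rintro rfl
    apply hq0
    rw [hq', mul_zero]
  have hcop : IsCoprime p' q' := by
    refine ⟨EuclideanDomain.gcdA p q, EuclideanDomain.gcdB p q, ?_⟩
    have h1 : g = p * EuclideanDomain.gcdA p q + q * EuclideanDomain.gcdB p q :=
      EuclideanDomain.gcd_eq_gcd_ab p q
    apply mul_left_cancel₀ hg
    calc g * (EuclideanDomain.gcdA p q * p' + EuclideanDomain.gcdB p q * q')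
        = (g * p') * EuclideanDomain.gcdA p q + (g * q') * EuclideanDomain.gcdB p q := by ring
      _ = p * EuclideanDomain.gcdA p q + q * EuclideanDomain.gcdB p q := by rw [← hp', ← hq']
      _ = g * 1 := by rw [← h1, mul_one]
  have hp1 : Ann L N k (g * p') := by rw [← hp']; exact hp
  have hq1 : Ann L N k (g * q') := by rw [← hq']; exact hq
  rcases Nat.eq_zero_or_pos (max p'.natDegree q'.natDegree) with h0 | h0
  · have h3 : p'.natDegree = 0 := by omega
    have h4 : q'.natDegree = 0 := by omega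
    rw [hp', hq', eq_one_of_natDegree_eq_zero p' hp'0 h3, eq_one_of_natDegree_eq_zero q' hq'0 h4]
  · exfalso
    rcases le_total p'.natDegree q'.natDegree with h3 | h3
    · have h5 : 1 ≤ q'.natDegree := by omega
      obtain ⟨h6, h7⟩ := ann_aux L N k h2 g p' q' hg hcop h5 h3 hp1 hq1
      exact hg (hmin _ (by omega) g h7)
    · have h5 : 1 ≤ p'.natDegree := by omega
      obtain ⟨h6, h7⟩ := ann_aux L N k h2 g q' p' hg hcop.symm h5 h3 hq1 hp1
      exact hg (hmin _ (by omega) g h7)

end H56.SP
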