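import Pool.Agent.H56.SP.PH
import Pool.Agent.H56.SP.DEC

namespace H56.SP
open Polynomial

/-- In characteristic two the substitution `X -> X + 1` is an involution. -/
theorem comp_comp_self (p : (ZMod 2)[X]) : (p.comp (X + 1)).comp (X + 1) = p := by
  rw [comp_assoc]
  have : (X + 1 : (ZMod 2)[X]).comp (X + 1) = X := by
    simp only [add_comp, X_comp, one_comp]
    have h2 : (1 : (ZMod 2)[X]) + 1 = 0 := by
      have : (2 : (ZMod 2)[X]) = 0 := CharTwo.two_eq_zero
      rw [one_add_one_eq_two, this]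
    rw [add_assoc, h2, add_zero]
  rw [this, comp_X]

theorem one_add_one_poly : (1 : (ZMod 2)[X]) + 1 = 0 := by
  rw [one_add_one_eq_two]; exact CharTwo.two_eq_zero

theorem add_self_poly (p : (ZMod 2)[X]) : p + p = 0 := CharTwo.add_self_eq_zero p

theorem X_add_one_comp : (X + 1 : (ZMod 2)[X]).comp (X + 1) = X := by
  simp only [add_comp, X_comp, one_comp]
  rw [add_assoc, one_add_one_poly, add_zero]

/-- One descent step: if `X * A = (X + 1) * A(X+1)` then `A(1) = 0`. -/
theorem eval_one_of_step (A : (ZMod 2)[X]) (h : X * A = (X + 1) * A.comp (X + 1)) :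
    A.eval 1 = 0 := by
  have := congrArg (eval 0) h
  simp at this
  simpa [eval_comp] using this.symm

theorem eval_zero_of_step (A : (ZMod 2)[X]) (h : (X + 1) * A = X * A.comp (X + 1)) :
    A.eval 0 = 0 := by
  have := congrArg (eval 0) h
  simpa using this


theorem S_ne_zero : (X ^ 2 + X : (ZMod 2)[X]) ≠ 0 := by
  intro h
  have := congrArg (fun p => coeff p 2) h
  simp [coeff_X] at this

theorem D_ne_zero : (X ^ 2 + X + 1 : (ZMod 2)[X]) ≠ 0 := by
  intro h
  have := congrArg (eval 0) h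
  simp at this

theorem Xp1_ne_zero : (X + 1 : (ZMod 2)[X]) ≠ 0 := by
  intro h
  have := congrArg (eval 0) h
  simp at this

theorem S_comp : (X ^ 2 + X : (ZMod 2)[X]).comp (X + 1) = X ^ 2 + X := by
  simp only [add_comp, pow_comp, X_comp]
  have h : (X + 1 : (ZMod 2)[X]) ^ 2 = X ^ 2 + 1 := by
    rw [CharTwo.add_sq, one_pow]
  rw [h]
  calc X ^ 2 + 1 + (X + 1) = X ^ 2 + X + (1 + 1 : (ZMod 2)[X]) := by ring
    _ = _ := by rw [one_add_one_poly, add_zero]

theorem D_comp : (X ^ 2 + X + 1 : (ZMod 2)[X]).comp (X + 1) = X ^ 2 + X + 1 := by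
  rw [add_comp, S_comp, one_comp]

theorem natDegree_S : (X ^ 2 + X : (ZMod 2)[X]).natDegree = 2 := by
  compute_degree!

theorem derivative_S : derivative (X ^ 2 + X : (ZMod 2)[X]) = 1 := by
  have h2 : ((2 : ℕ) : ZMod 2) = 0 := by decide
  rw [derivative_add, derivative_X_pow, derivative_X, h2, C_0, zero_mul, zero_add]

theorem natDegree_S_mul (w : (ZMod 2)[X]) (hw : w ≠ 0) :
    ((X ^ 2 + X) * w).natDegree = 2 + w.natDegree := by
  rw [natDegree_mul S_ne_zero hw, natDegree_S]

theorem even_natDegree_of_tau (v : (ZMod 2)[X]) (h : v.comp (X + 1) = v) :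
    Even v.natDegree := by
  obtain ⟨g, -, hg⟩ := tau_inv v h
  rw [hg]; exact even_two_mul _

/-- from `(X+1) A` invariant to the step relation -/
theorem step_of_inv (A : (ZMod 2)[X]) (h : ((X + 1) * A).comp (X + 1) = (X + 1) * A) :
    (X + 1) * A = X * A.comp (X + 1) := by
  rw [mul_comp, X_add_one_comp] at h
  exact h.symm

/-- the odd part: no solution of odd degree -/
theorem lemW_odd (m : ℕ) : ∀ k : ℕ, k ≤ m → Odd k → ∀ v : (ZMod 2)[X], v.natDegree ≤ k →
    v.comp (X + 1) = v → (Phi k v).comp (X + 1) = Phi k v → v = 0 := by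
  induction m with
  | zero =>
    intro k hk hodd
    obtain ⟨j, hj⟩ := hodd
    omega
  | succ m ih =>
    intro k hkm hodd v hv h1 h2
    obtain ⟨j, hj⟩ := hodd
    have hev := even_natDegree_of_tau v h1
    have hv' : v.natDegree ≤ 2 * j := by
      obtain ⟨r, hr⟩ := hev
      omega
    rw [hj, Phi_succ (2 * j) v hv'] at h2
    have hs := step_of_inv _ h2
    have h0 := eval_zero_of_step _ hs
    rw [Phi_eval_zero (2 * j) v hv'] at h0
    obtain ⟨w, hw, hwt⟩ := tau_dvd v h1 h0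
    by_cases hw0 : w = 0
    · rw [hw, hw0, mul_zero]
    have hdeg : 2 + w.natDegree ≤ 2 * j := by
      rw [← natDegree_S_mul w hw0, ← hw]; exact hv'
    obtain ⟨i, hi⟩ : ∃ i, j = i + 1 := ⟨j - 1, by omega⟩
    have hwd : w.natDegree ≤ 2 * i := by omega
    have hphi : Phi (2 * j) v = X ^ 2 * (X ^ 2 + X + 1) * Phi (2 * i) w := by
      rw [hw, show 2 * j = 2 + 2 * i by omega, Phi_mul 2 (2 * i) _ w natDegree_S.le hwd,
        Phi_two_S]
    rw [hphi] at hs
    have hs2 : X * Phi (2 * i) w = (X + 1) * (Phi (2 * i) w).comp (X + 1) := by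
      have hne : (X * (X + 1) * (X ^ 2 + X + 1) : (ZMod 2)[X]) ≠ 0 :=
        mul_ne_zero (mul_ne_zero X_ne_zero Xp1_ne_zero) D_ne_zero
      apply mul_left_cancel₀ hne
      rw [mul_comp, mul_comp, D_comp, pow_comp, X_comp] at hs
      calc X * (X + 1) * (X ^ 2 + X + 1) * (X * Phi (2 * i) w)
          = (X + 1) * (X ^ 2 * (X ^ 2 + X + 1) * Phi (2 * i) w) := by ring
        _ = X * ((X + 1) ^ 2 * (X ^ 2 + X + 1) * (Phi (2 * i) w).comp (X + 1)) := hs
        _ = _ := by ring
    have he := eval_one_of_step _ hs2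
    rw [Phi_eval_one (2 * i) w hwd] at he
    rcases Nat.eq_zero_or_pos i with hi0 | hi0
    · exfalso
      apply hw0
      subst hi0
      have : w.natDegree ≤ 0 := by simpa using hwd
      rw [eq_C_of_natDegree_le_zero this]
      simp only [mul_zero] at he
      rw [he, C_0]
    obtain ⟨r, hr⟩ : ∃ r, 2 * i = r + 1 := ⟨2 * i - 1, by omega⟩
    rw [hr] at hwd he hs2
    have hwd' := natDegree_le_pred r w hwd he
    rw [Phi_succ r w hwd'] at hs2
    have hinv : (Phi r w).comp (X + 1) = Phi r w := by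
      have hne : (X * (X + 1) : (ZMod 2)[X]) ≠ 0 := mul_ne_zero X_ne_zero Xp1_ne_zero
      apply mul_left_cancel₀ hne
      rw [mul_comp, X_add_one_comp] at hs2
      calc X * (X + 1) * (Phi r w).comp (X + 1)
          = (X + 1) * (X * (Phi r w).comp (X + 1)) := by ring
        _ = X * ((X + 1) * Phi r w) := hs2.symm
        _ = _ := by ring
    exfalso
    apply hw0
    exact ih r (by omega) ⟨i - 1, by omega⟩ w hwd' hwt hinv

theorem Phi_four_S : Phi 4 (X ^ 2 + X) = (X ^ 2 + X) ^ 2 * (X ^ 2 + X + 1) := by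
  rw [show 4 = 3 + 1 by norm_num, Phi_succ 3 _ (by rw [natDegree_S]; norm_num),
    show 3 = 2 + 1 by norm_num, Phi_succ 2 _ natDegree_S.le, Phi_two_S]
  ring

theorem natDegree_S_pow (a : ℕ) : ((X ^ 2 + X : (ZMod 2)[X]) ^ a).natDegree = 2 * a := by
  rw [natDegree_pow, natDegree_S, mul_comm]

theorem Phi_S_pow (a : ℕ) :
    Phi (4 * a) ((X ^ 2 + X) ^ a) = ((X ^ 2 + X) ^ 2 * (X ^ 2 + X + 1)) ^ a := by
  induction a with
  | zero =>
    have := Phi_C_mul_X_pow 0 0 le_rfl 1
    simpa using this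
  | succ a ih =>
    rw [show 4 * (a + 1) = 4 * a + 4 by ring, pow_succ,
      Phi_mul (4 * a) 4 _ _ (by rw [natDegree_S_pow]; omega) (by rw [natDegree_S]; norm_num), ih,
      Phi_four_S, pow_succ _ a]

theorem S_pow_comp (a : ℕ) : ((X ^ 2 + X : (ZMod 2)[X]) ^ a).comp (X + 1) = (X ^ 2 + X) ^ a := by
  rw [pow_comp, S_comp]

theorem Phi_S_pow_comp (a : ℕ) :
    (Phi (4 * a) ((X ^ 2 + X) ^ a)).comp (X + 1) = Phi (4 * a) ((X ^ 2 + X) ^ a) := by
  rw [Phi_S_pow, pow_comp, mul_comp, pow_comp, S_comp, D_comp]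

theorem sq_inj (p q : (ZMod 2)[X]) (h : p ^ 2 = q ^ 2) : p = q := by
  have h2 : (p + q) ^ 2 = 0 := by rw [CharTwo.add_sq, h, add_self_poly]
  have h3 : p + q = 0 := pow_eq_zero_iff (two_ne_zero) |>.mp h2
  exact CharTwo.add_eq_zero.mp h3

/-- the step for zero derivative -/
theorem lemW_sq (k : ℕ) (hk : 0 < k) (hke : Even k)
    (ih : ∀ j < k, ∀ v : (ZMod 2)[X], v.natDegree ≤ j → v ≠ 0 →
      v.comp (X + 1) = v → (Phi j v).comp (X + 1) = Phi j v →
      ∃ a : ℕ, j = 4 * a ∧ v = (X ^ 2 + X) ^ a)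
    (v : (ZMod 2)[X]) (hv : v.natDegree ≤ k) (hv0 : v ≠ 0)
    (h1 : v.comp (X + 1) = v) (h2 : (Phi k v).comp (X + 1) = Phi k v)
    (hd : derivative v = 0) : ∃ b : ℕ, k = 4 * (2 * b) ∧ v = (X ^ 2 + X) ^ (2 * b) := by
  obtain ⟨j, hj⟩ := hke
  obtain ⟨w, hw⟩ : ∃ w : (ZMod 2)[X], v = w ^ 2 := by
    refine ⟨contract 2 v, ?_⟩
    have := expand_contract 2 hd (two_ne_zero)
    rw [← ZMod.expand_card (p := 2)]
    exact this.symm
  have hw0 : w ≠ 0 := by
    rintro rfl
    apply hv0
    rw [hw]; ring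
  have hwd : w.natDegree ≤ j := by
    have : v.natDegree = 2 * w.natDegree := by rw [hw, natDegree_pow]
    omega
  have hwt : w.comp (X + 1) = w := by
    apply sq_inj
    rw [← pow_comp, ← hw, h1]
  have hwp : (Phi j w).comp (X + 1) = Phi j w := by
    apply sq_inj
    rw [← pow_comp, ← Phi_sq j w hwd, ← hw, ← hj, h2]
  obtain ⟨b, hb1, hb2⟩ := ih j (by omega) w hwd hw0 hwt hwp
  refine ⟨b, by omega, ?_⟩
  rw [hw, hb2, ← pow_mul, mul_comm]

theorem lemW_aux (m : ℕ) : ∀ k : ℕ, k < m → ∀ v : (ZMod 2)[X], v.natDegree ≤ k → v ≠ 0 →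
    v.comp (X + 1) = v → (Phi k v).comp (X + 1) = Phi k v →
    ∃ a : ℕ, k = 4 * a ∧ v = (X ^ 2 + X) ^ a := by
  induction m with
  | zero => intro k hk; omega
  | succ m ihm =>
    intro k hkm v hv hv0 h1 h2
    have ih : ∀ j < k, ∀ v : (ZMod 2)[X], v.natDegree ≤ j → v ≠ 0 →
      v.comp (X + 1) = v → (Phi j v).comp (X + 1) = Phi j v →
      ∃ a : ℕ, j = 4 * a ∧ v = (X ^ 2 + X) ^ a := fun j hj => ihm j (by omega)
    rcases Nat.even_or_odd k with hke | hko
    swap
    · exact absurd (lemW_odd k k le_rfl hko v hv h1 h2) hv0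
    rcases Nat.eq_zero_or_pos k with hk0 | hk0
    · subst hk0
      refine ⟨0, rfl, ?_⟩
      rw [eq_C_of_natDegree_le_zero hv, pow_zero]
      have hc : v.coeff 0 ≠ 0 := by
        intro h
        apply hv0
        rw [eq_C_of_natDegree_le_zero hv, h, C_0]
      have : v.coeff 0 = 1 := by
        generalize v.coeff 0 = c at hc
        revert c; decide
      rw [this, C_1]
    obtain ⟨k0, hk0e⟩ : ∃ k0, k = k0 + 2 := by
      obtain ⟨r, hr⟩ := hke
      exact ⟨k - 2, by omega⟩
    have hk0even : Even k0 := by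
      rw [hk0e] at hke
      exact (Nat.even_add.mp hke).mpr even_two
    set v1 := derivative v with hv1
    have hv1d : v1.natDegree ≤ k0 :=
      natDegree_derivative_le_of_even k0 hk0even v (by omega)
    have hv1t : v1.comp (X + 1) = v1 := by
      have := congrArg derivative h1
      rw [derivative_comp] at this
      simpa using this
    have hinv : (X ^ 2 * Phi k0 v1).comp (X + 1) = X ^ 2 * Phi k0 v1 := by
      have h3 := congrArg derivative h2
      rw [derivative_comp, hk0e, Phi_deriv k0 hk0even v (by omega)] at h3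
      simpa using h3
    by_cases hz : v1 = 0
    · obtain ⟨b, hb1, hb2⟩ := lemW_sq k hk0 hke ih v hv hv0 h1 h2 hz
      exact ⟨2 * b, hb1, hb2⟩
    have hstep0 : X ^ 2 * Phi k0 v1 = (X + 1) ^ 2 * (Phi k0 v1).comp (X + 1) := by
      rw [← hinv, mul_comp, pow_comp, X_comp]
    have he0 : v1.coeff k0 = 0 := by
      rw [← Phi_eval_one k0 v1 hv1d]
      have := congrArg (eval 0) hstep0
      simp at this
      simpa [eval_comp] using this.symm
    -- k0 > 0
    rcases Nat.eq_zero_or_pos k0 with hk00 | hk00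
    · exfalso
      apply hz
      rw [hk00] at hv1d he0
      rw [eq_C_of_natDegree_le_zero hv1d, he0, C_0]
    obtain ⟨k1, hk1⟩ : ∃ k1, k0 = k1 + 1 := ⟨k0 - 1, by omega⟩
    rw [hk1] at hv1d he0 hstep0
    have hv1d1 := natDegree_le_pred k1 v1 hv1d he0
    rw [Phi_succ k1 v1 hv1d1] at hstep0
    have hstep1 : X * Phi k1 v1 = (X + 1) * (Phi k1 v1).comp (X + 1) := by
      have hne : (X * (X + 1) : (ZMod 2)[X]) ≠ 0 := mul_ne_zero X_ne_zero Xp1_ne_zero
      apply mul_left_cancel₀ hne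
      rw [mul_comp, X_add_one_comp] at hstep0
      calc X * (X + 1) * (X * Phi k1 v1) = X ^ 2 * ((X + 1) * Phi k1 v1) := by ring
        _ = (X + 1) ^ 2 * (X * (Phi k1 v1).comp (X + 1)) := hstep0
        _ = _ := by ring
    have he1 := eval_one_of_step _ hstep1
    rw [Phi_eval_one k1 v1 hv1d1] at he1
    obtain ⟨k2, hk2⟩ : ∃ k2, k1 = k2 + 1 := by
      obtain ⟨r, hr⟩ := hk0even
      exact ⟨k1 - 1, by omega⟩
    rw [hk2] at hv1d1 he1 hstep1
    have hv1d2 := natDegree_le_pred k2 v1 hv1d1 he1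
    rw [Phi_succ k2 v1 hv1d2] at hstep1
    have hinv2 : (Phi k2 v1).comp (X + 1) = Phi k2 v1 := by
      have hne : (X * (X + 1) : (ZMod 2)[X]) ≠ 0 := mul_ne_zero X_ne_zero Xp1_ne_zero
      apply mul_left_cancel₀ hne
      rw [mul_comp, X_add_one_comp] at hstep1
      calc X * (X + 1) * (Phi k2 v1).comp (X + 1)
          = (X + 1) * (X * (Phi k2 v1).comp (X + 1)) := by ring
        _ = X * ((X + 1) * Phi k2 v1) := hstep1.symm
        _ = _ := by ring
    obtain ⟨a, ha1, ha2⟩ := ih k2 (by omega) v1 hv1d2 hz hv1t hinv2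
    have hk4 : k = 4 * (a + 1) := by omega
    -- a is even
    have hdd : derivative v1 = 0 := by
      rw [hv1]
      ext i
      rw [coeff_derivative, coeff_derivative, coeff_zero]
      have : ((i : ZMod 2) + 1 + 1) * ((i : ZMod 2) + 1) = 0 := by
        generalize (i : ZMod 2) = c
        revert c; decide
      push_cast
      rw [mul_assoc, this, mul_zero]
    have haE : Even a := by
      by_contra hodd
      rw [Nat.not_even_iff_odd] at hodd
      obtain ⟨r, hr⟩ := hodd
      rw [ha2, derivative_pow, hr] at hdd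
      have hdS := derivative_S
      rw [hdS, mul_one] at hdd
      have hc : ((2 * r + 1 : ℕ) : ZMod 2) = 1 := by
        push_cast
        have : (2 : ZMod 2) = 0 := by decide
        rw [this, zero_mul, zero_add]
      rw [hc, C_1, one_mul, Nat.add_sub_cancel] at hdd
      exact (pow_ne_zero _ S_ne_zero) hdd
    set u := v + (X ^ 2 + X) ^ (a + 1) with hu
    have hud : derivative u = 0 := by
      have hdS := derivative_S
      obtain ⟨r, hr⟩ := haE
      have hc : ((a + 1 : ℕ) : ZMod 2) = 1 := by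
        rw [hr]; push_cast
        have : ((r : ZMod 2) + r) = 0 := by
          generalize (r : ZMod 2) = c
          revert c; decide
        rw [this, zero_add]
      rw [hu, derivative_add, derivative_pow, hdS, hc, C_1, one_mul, mul_one,
        Nat.add_sub_cancel, ← hv1, ha2, add_self_poly]
    have hut : u.comp (X + 1) = u := by rw [hu, add_comp, h1, S_pow_comp]
    have hup : (Phi k u).comp (X + 1) = Phi k u := by
      rw [hu, Phi_add, add_comp, h2, hk4, Phi_S_pow_comp]
    have hudeg : u.natDegree ≤ k := by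
      refine (natDegree_add_le _ _).trans (max_le hv ?_)
      rw [natDegree_S_pow]; omega
    by_cases hu0 : u = 0
    · refine ⟨a + 1, hk4, ?_⟩
      exact CharTwo.add_eq_zero.mp hu0
    · obtain ⟨b, hb1, -⟩ := lemW_sq k hk0 hke ih u hudeg hu0 hut hup hud
      obtain ⟨r, hr⟩ := haE
      omega

theorem lemW (k : ℕ) (v : (ZMod 2)[X]) (hk : v.natDegree ≤ k) (hv : v ≠ 0)
    (h1 : v.comp (X + 1) = v) (h2 : (Phi k v).comp (X + 1) = Phi k v) :
    ∃ a : ℕ, k = 4 * a ∧ v = (X ^ 2 + X) ^ a :=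
  lemW_aux (k + 1) k (Nat.lt_succ_self k) v hk hv h1 h2

end H56.SP
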