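import Pool.Agent.H56.SP.PH
import Pool.Agent.H56.SP.DEC
import Pool.Agent.H56.SP.U
import Pool.Agent.H56.SP.EX
import Pool.Agent.H56.SP.W

/-! Setup for the main argument: `L` a functional on polynomials of degree at most `2n+1`,
invariant under `X -> X+1` and under reversal, with the duplication property `hD`. -/

namespace H56.SP
open Polynomial

/-- the hypotheses on `L` (degree `2n+1`) -/
structure Good (L : (ZMod 2)[X] →ₗ[ZMod 2] ZMod 2) (n : ℕ) : Prop where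
  tau : ∀ p : (ZMod 2)[X], p.natDegree ≤ 2 * n + 1 → L (p.comp (X + 1)) = L p
  rev : ∀ p : (ZMod 2)[X], p.natDegree ≤ 2 * n + 1 → L (p.reflect (2 * n + 1)) = L p
  dup : ∀ F : (ZMod 2)[X], F.natDegree ≤ n →
    L (X * F.comp (X ^ 2)) = L (X * F.comp (X ^ 2 + X))

/-- `lam L F = L (X * F(X^2))` -/
noncomputable def lam (L : (ZMod 2)[X] →ₗ[ZMod 2] ZMod 2) : (ZMod 2)[X] →ₗ[ZMod 2] ZMod 2 where
  toFun F := L (X * F.comp (X ^ 2))
  map_add' p q := by rw [add_comp, mul_add, map_add]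
  map_smul' c p := by rw [smul_comp, mul_smul_comm, map_smul, RingHom.id_apply]

theorem lam_apply (L : (ZMod 2)[X] →ₗ[ZMod 2] ZMod 2) (F : (ZMod 2)[X]) :
    lam L F = L (X * F.comp (X ^ 2)) := rfl

/-- the swap of `Y` and `Z = X + Y` on forms of degree `k` (dehomogenised at `Y = 1`) -/
noncomputable def sig (k : ℕ) (p : (ZMod 2)[X]) : (ZMod 2)[X] :=
  ((p.reflect k).comp (X + 1)).reflect k

/- ===== part 1 (S1, S2, S3, S6, S7) ===== -/

theorem S1_natDegree_S : ((X : (ZMod 2)[X]) ^ 2 + X).natDegree = 2 := by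
  compute_degree!

theorem S1_S_comp : ((X : (ZMod 2)[X]) ^ 2 + X).comp (X + 1) = X ^ 2 + X := by
  have h2 : (2 : (ZMod 2)[X]) = 0 := CharTwo.two_eq_zero
  simp only [add_comp, pow_comp, X_comp]
  linear_combination (X + 1) * h2

theorem S1_comp_S_comp (b : (ZMod 2)[X]) :
    (b.comp (X ^ 2 + X)).comp (X + 1) = b.comp (X ^ 2 + X) := by
  rw [comp_assoc, S1_S_comp]

theorem S1_natDegree_comp_S (b : (ZMod 2)[X]) :
    (b.comp (X ^ 2 + X)).natDegree = 2 * b.natDegree := by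
  rw [natDegree_comp, S1_natDegree_S]
  ring

theorem S1_tau_tau (h : (ZMod 2)[X]) : (h.comp (X + 1)).comp (X + 1) = h := by
  have h2 : (2 : (ZMod 2)[X]) = 0 := CharTwo.two_eq_zero
  rw [comp_assoc]
  have h3 : ((X : (ZMod 2)[X]) + 1).comp (X + 1) = X := by
    simp only [add_comp, X_comp, one_comp]
    linear_combination h2
  rw [h3, comp_X]

theorem S1_natDegree_tau (h : (ZMod 2)[X]) : (h.comp (X + 1)).natDegree = h.natDegree := by
  have h1 : ((X : (ZMod 2)[X]) + 1).natDegree = 1 := by compute_degree!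
  rw [natDegree_comp, h1, mul_one]

theorem S1_natDegree_X_mul_comp_S (q : (ZMod 2)[X]) :
    (X * q.comp (X ^ 2 + X)).natDegree ≤ 2 * q.natDegree + 1 := by
  refine natDegree_mul_le.trans ?_
  rw [natDegree_X, S1_natDegree_comp_S]
  omega

theorem Good.comp_S {L : (ZMod 2)[X] →ₗ[ZMod 2] ZMod 2} {n : ℕ} (hL : Good L n)
    (q : (ZMod 2)[X]) (hq : q.natDegree ≤ n) : L (q.comp (X ^ 2 + X)) = 0 := by
  have h1 := hL.tau (X * q.comp (X ^ 2 + X))
    ((S1_natDegree_X_mul_comp_S q).trans (by omega))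
  rw [mul_comp, X_comp, S1_comp_S_comp, add_mul, one_mul, map_add] at h1
  linear_combination h1

theorem Good.ann_tau {L : (ZMod 2)[X] →ₗ[ZMod 2] ZMod 2} {n : ℕ} (hL : Good L n) (k : ℕ)
    (hk : k ≤ 2 * n + 1) (p : (ZMod 2)[X]) (hp : Ann L (2 * n + 1) k p) :
    Ann L (2 * n + 1) k (p.comp (X + 1)) := by
  refine ⟨by rw [S1_natDegree_tau]; exact hp.1, ?_⟩
  intro h hh
  have h1 : p.comp (X + 1) * h = (p * h.comp (X + 1)).comp (X + 1) := by
    rw [mul_comp, S1_tau_tau]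
  have h2 : (p * h.comp (X + 1)).natDegree ≤ 2 * n + 1 := by
    refine natDegree_mul_le.trans ?_
    rw [S1_natDegree_tau]
    have := hp.1
    omega
  rw [h1, hL.tau _ h2]
  exact hp.2 _ (by rw [S1_natDegree_tau]; exact hh)

theorem S1_natDegree_reflect_le (m : ℕ) (h : (ZMod 2)[X]) (hh : h.natDegree ≤ m) :
    (h.reflect m).natDegree ≤ m := by
  rw [natDegree_le_iff_coeff_eq_zero]
  intro N hN
  rw [coeff_reflect, revAt_eq_self_of_lt hN]
  exact coeff_eq_zero_of_natDegree_lt (lt_of_le_of_lt hh hN)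

theorem S1_reflect_reflect (m : ℕ) (h : (ZMod 2)[X]) : (h.reflect m).reflect m = h := by
  ext i
  rw [coeff_reflect, coeff_reflect, revAt_invol]

theorem Good.ann_rev {L : (ZMod 2)[X] →ₗ[ZMod 2] ZMod 2} {n : ℕ} (hL : Good L n) (k : ℕ)
    (hk : k ≤ 2 * n + 1) (p : (ZMod 2)[X]) (hp : Ann L (2 * n + 1) k p) :
    Ann L (2 * n + 1) k (p.reflect k) := by
  refine ⟨S1_natDegree_reflect_le k p hp.1, ?_⟩
  intro h hh
  have hm : h.natDegree ≤ 2 * n + 1 - k := by omega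
  have h3 : (h.reflect (2 * n + 1 - k)).natDegree ≤ 2 * n + 1 - k :=
    S1_natDegree_reflect_le _ h hm
  have h1 : p.reflect k * h = (p * h.reflect (2 * n + 1 - k)).reflect (2 * n + 1) := by
    have h2 := reflect_mul p (h.reflect (2 * n + 1 - k)) hp.1 h3
    rw [S1_reflect_reflect, show k + (2 * n + 1 - k) = 2 * n + 1 by omega] at h2
    exact h2.symm
  have h4 : (p * h.reflect (2 * n + 1 - k)).natDegree ≤ 2 * n + 1 := by
    refine natDegree_mul_le.trans ?_
    have := hp.1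
    omega
  rw [h1, hL.rev _ h4]
  exact hp.2 _ (by omega)

/-- from `L` to `lam L` (uses `dup`) -/
theorem Good.ann_lam {L : (ZMod 2)[X] →ₗ[ZMod 2] ZMod 2} {n : ℕ} (hL : Good L n) (k k1 : ℕ)
    (hk1 : k1 ≤ 2 * k) (g : (ZMod 2)[X]) (hg : g.natDegree ≤ k)
    (h : Ann L (2 * n + 1) k1 (g.comp (X ^ 2 + X))) : Ann (lam L) n k g := by
  refine ⟨hg, ?_⟩
  intro u hu
  have h1 : (g * u).natDegree ≤ n := natDegree_mul_le.trans (by omega)
  rw [lam_apply, hL.dup _ h1, mul_comp,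
    show X * (g.comp (X ^ 2 + X) * u.comp (X ^ 2 + X))
      = g.comp (X ^ 2 + X) * (X * u.comp (X ^ 2 + X)) by ring]
  refine h.2 _ ?_
  have h2 := S1_natDegree_X_mul_comp_S u
  omega

/-- from `lam L` back to `L` (uses `dup`, `comp_S` and `dec`) -/
theorem Good.ann_of_lam {L : (ZMod 2)[X] →ₗ[ZMod 2] ZMod 2} {n : ℕ} (hL : Good L n) (k : ℕ)
    (hk : k ≤ n) (g : (ZMod 2)[X]) (h : Ann (lam L) n k g) :
    Ann L (2 * n + 1) (2 * k) (g.comp (X ^ 2 + X)) := by
  refine ⟨by rw [S1_natDegree_comp_S]; have := h.1; omega, ?_⟩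
  intro u hu
  obtain ⟨a, b, ha, hb, hab⟩ := dec (n - k) u (by omega)
  have hg := h.1
  have h1 : g.comp (X ^ 2 + X) * u = (g * a).comp (X ^ 2 + X) + X * (g * b).comp (X ^ 2 + X) := by
    rw [hab, mul_comp, mul_comp]
    ring
  have h2 : (g * a).natDegree ≤ n := natDegree_mul_le.trans (by omega)
  have h3 : (g * b).natDegree ≤ n := natDegree_mul_le.trans (by omega)
  rw [h1, map_add, hL.comp_S _ h2, ← hL.dup _ h3, zero_add, ← lam_apply]
  exact h.2 b (by omega)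

end H56.SP
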