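import Pool.Agent.H56.SP.Main
import Pool.Agent.H56.SP.CaseC

/-! A functional with the duplication property vanishes. -/

namespace H56.SP
open Polynomial

theorem good_zero {L : (ZMod 2)[X] →ₗ[ZMod 2] ZMod 2} {n : ℕ} (hL : Good L n)
    (p : (ZMod 2)[X]) (hp : p.natDegree ≤ 2 * n + 1) : L p = 0 := by
  rcases Nat.eq_zero_or_pos n with hn | hn
  · subst hn
    exact good_zero_zero hL p (by omega)
  by_contra hne
  classical
  have hex : ∃ k, ∃ q : (ZMod 2)[X], q ≠ 0 ∧ Ann L (2 * n + 1) k q := ⟨n + 1, ann_exists L n⟩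
  obtain ⟨k1, hk1, hmin0⟩ : ∃ k1, (∃ q : (ZMod 2)[X], q ≠ 0 ∧ Ann L (2 * n + 1) k1 q) ∧
      ∀ j < k1, ¬ ∃ q : (ZMod 2)[X], q ≠ 0 ∧ Ann L (2 * n + 1) j q :=
    ⟨Nat.find hex, Nat.find_spec hex, fun j hj => Nat.find_min hex hj⟩
  have hmin : ∀ j < k1, ∀ q, Ann L (2 * n + 1) j q → q = 0 := by
    intro j hj q hq
    by_contra h0
    exact hmin0 j hj ⟨q, h0, hq⟩
  have hk1n : k1 ≤ n + 1 := by
    by_contra hlt
    exact hmin0 (n + 1) (by omega) (ann_exists L n)
  obtain ⟨f, hf0, hf⟩ := hk1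
  have hk1pos : 1 ≤ k1 := by
    by_contra h0
    have h0' : k1 = 0 := by omega
    subst h0'
    apply hne
    have hfd : f.natDegree = 0 := by
      have := hf.1; omega
    have hf1 : f = 1 := eq_one_of_natDegree_eq_zero f hf0 hfd
    have := hf.2 p (by omega)
    rwa [hf1, one_mul] at this
  have hft : f.comp (X + 1) = f :=
    ann_unique L (2 * n + 1) k1 hmin (by omega) _ _ (hL.ann_tau k1 (by omega) f hf) hf
      (comp_ne_zero f hf0) hf0
  have hfr : f.reflect k1 = f :=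
    ann_unique L (2 * n + 1) k1 hmin (by omega) _ _ (hL.ann_rev k1 (by omega) f hf) hf
      (by rwa [Ne, reflect_eq_zero_iff]) hf0
  obtain ⟨g, hfg, hfd⟩ := tau_inv f hft
  have hfk : f.natDegree ≤ k1 := hf.1
  rcases Nat.even_or_odd' k1 with ⟨k, hk | hk⟩
  · subst hk
    exact caseA hL hn (by omega) (by omega) hmin f g hf0 hf hft hfr hfg (by omega)
  · subst hk
    have hg : g.natDegree ≤ k := by omega
    have hlg : Ann (lam L) n (k + 1) g :=
      hL.ann_lam (k + 1) (2 * k + 1) (by omega) g (by omega) (by rw [← hfg]; exact hf)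
    have hg0 : g ≠ 0 := by
      rintro rfl
      exact hf0 (by rw [hfg, zero_comp])
    by_cases hsg : sig (k + 1) g = g
    · exact caseB hL hk1n hmin f g hf0 hf hft hfr hfg hg hlg hsg
    · rcases Nat.lt_or_ge (2 * (k + 1)) (n + 2) with hlt | hge
      · apply hsg
        refine ann_unique (lam L) n (k + 1) ?_ (by omega) _ _
          (hL.ann_sig (k + 1) (by omega) g hlg) hlg (sig_ne_zero _ g hg0) hg0
        intro j hj q hq
        exact no_small hL hmin j (by omega) (by omega) q hq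
      · have hnk : n = 2 * k := by omega
        subst hnk
        exact caseC L k (by omega) hL hmin f g hf0 hf hft hfr hfg hg hlg hsg

/-- The same with the hypotheses written out. -/
theorem D_zero (n : ℕ) (L : (ZMod 2)[X] →ₗ[ZMod 2] ZMod 2)
    (ht : ∀ p : (ZMod 2)[X], p.natDegree ≤ 2 * n + 1 → L (p.comp (X + 1)) = L p)
    (hr : ∀ p : (ZMod 2)[X], p.natDegree ≤ 2 * n + 1 → L (p.reflect (2 * n + 1)) = L p)
    (hD : ∀ F : (ZMod 2)[X], F.natDegree ≤ n →
      L (X * F.comp (X ^ 2)) = L (X * F.comp (X ^ 2 + X)))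
    (p : (ZMod 2)[X]) (hp : p.natDegree ≤ 2 * n + 1) : L p = 0 :=
  good_zero ⟨ht, hr, hD⟩ p hp

end H56.SP
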